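import Pool.Agent.Helper37.Arb.Def

/-!
PROJECT ARB (MP_2b0227_gt): goals. Every goal is a `Prop`-valued definition; goals needed by
other goals appear there as hypotheses (by name). Complete proofs in words are in the
docstrings. Notation in the docstrings: for a marked diagram `M`, `l = M.l`, `r = M.r`,
`V = M.V`; everything is over `ℝ` and `x > 0`.
-/

namespace Pool.Agent.Helper37.Arb

open Pool.Agent.Helper36.SC Polynomial

/-! ### Part A: linear algebra -/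

section matrices

variable {V : Type} (D : AltDiagram V) (x : ℝ)

/-- weight of the step `v → underNext v` -/
noncomputable def fwd (v : V) : ℝ := if D.pos v then 1 else x

/-- weight of the step `v → overNext⁻¹ v` -/
noncomputable def bwd (v : V) : ℝ := if D.pos v then x else 1

variable [DecidableEq V]

/-- The Alexander matrix at `X = -x`: row `v` is `(1+x) v - fwd v · underNext v -
bwd v · overNext⁻¹ v`. -/
noncomputable def lap : Matrix V V ℝ :=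
  Matrix.of fun v w => (1 + x) * (if w = v then 1 else 0)
    - fwd D x v * (if w = D.underNext v then 1 else 0)
    - bwd D x v * (if w = D.overNext.symm v then 1 else 0)

/-- the entry of the step along the edge that leaves `v` on the underpass -/
noncomputable def stepU (v : V) : Matrix V V ℝ := Matrix.single v (D.underNext v) (fwd D x v)

/-- the entry of the step against the edge that leaves `v` on the overpass -/
noncomputable def stepO (v : V) : Matrix V V ℝ :=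
  Matrix.single (D.overNext v) v (bwd D x (D.overNext v))

end matrices

/-- The matrix of the tangle with the two closing edges cut. -/
noncomputable def openMat (s : Bool) (M : Marked) (x : ℝ) : Matrix M.V M.V ℝ :=
  lap M.D x + stepU M.D x M.l + (if s then stepO M.D x M.r else stepU M.D x M.r)

/-- Response of a parallel tangle: `j` is the exponent of the unit, `L R b` are the values
of the polynomials as functions of `x`; `a = b + R = x b + L`. For all boundary values `s`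
(behind the outgoing underpass `l`) and `t` (before the incoming underpass `overNext r`) there
is a harmonic function `h`. -/
def Resp2 (M : Marked) (j : ℤ) (L R b : ℝ → ℝ) : Prop :=
  ∀ x : ℝ, 0 < x →
    (openMat true M x).det = x ^ j * (b x + R x) ∧
    ∀ s t : ℝ, ∃ h : M.V → ℝ,
      (openMat true M x).mulVec h =
        Pi.single M.l (fwd M.D x M.l * s) +
          Pi.single (M.D.overNext M.r) (bwd M.D x (M.D.overNext M.r) * t) ∧
      (b x + R x) * h (M.D.underNext M.l) = L x * s + x * b x * t ∧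
      (b x + R x) * h M.r = b x * s + R x * t

/-- Response of an antiparallel tangle. -/
def Resp1 (M : Marked) (j : ℤ) (a b : ℝ → ℝ) : Prop :=
  M.l ≠ M.r ∧
  ∀ x : ℝ, 0 < x →
    (openMat false M x).det = x ^ j * (a x + x * b x) ∧
    ∀ s t : ℝ, ∃ h : M.V → ℝ,
      (openMat false M x).mulVec h =
        Pi.single M.l (fwd M.D x M.l * s) + Pi.single M.r (fwd M.D x M.r * t) ∧
      (a x + x * b x) * h (M.D.underNext M.l) = a x * s + x * b x * t ∧
      (a x + x * b x) * h (M.D.underNext M.r) = x * b x * s + a x * t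

/-- values of the polynomial data -/
noncomputable def Data.l (d : Data) (x : ℝ) : ℝ := aeval x d.L
/-- values of the polynomial data -/
noncomputable def Data.r (d : Data) (x : ℝ) : ℝ := aeval x d.R
/-- values of the polynomial data -/
noncomputable def Data.f (d : Data) (x : ℝ) : ℝ := aeval x d.b

/-- Integer index: `n v = 0` at positive and `1` at negative crossings; `k - n` is constant
along the edges that leave on the underpass, `k + n` along the others. -/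
structure Index (s : Bool) (M : Marked) (k : M.V → ℤ) : Prop where
  hU : ∀ v, k (M.D.underNext v) - (if M.D.pos (M.D.underNext v) then 0 else 1) =
    k v - (if M.D.pos v then 0 else 1)
  hO : ∀ v, k (M.D.overNext v) + (if M.D.pos (M.D.overNext v) then 0 else 1) =
    k v + (if M.D.pos v then 0 else 1)
  hl : k M.l - (if M.D.pos M.l then 0 else 1) = 0
  hr : (if s then k M.r + (if M.D.pos M.r then 0 else 1)
    else k M.r - (if M.D.pos M.r then 0 else 1)) = 0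

/-- INDEX. Induction on `t`: cross `k = 0`; stack, beside, opposite, sum: `Sum.elim k₁ k₂`
(the swapped edges have the value `0` of `k - n` resp. `k + n` on both sides by `hl`, `hr`); turn: `k' = 1 - k`; flip: `k' = -k`. -/
def GoalIndex : Prop := ∀ {s : Bool} (t : Tangle s), ∃ k, Index s t.diag k

/-- DATA. Induction on `t` (all polynomials have nonnegative coefficients and are not zero, so
the values at `x > 0` are positive). -/
def GoalData2 : Prop := ∀ (t : Tangle true),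
  t.data.L - t.data.R = (1 - X) * t.data.b ∧
  ∀ x : ℝ, 0 < x → 0 < t.data.l x ∧ 0 < t.data.r x ∧ 0 < t.data.f x ∧
    x ^ t.data.N * t.data.l x⁻¹ = t.data.r x ∧ x ^ t.data.N * t.data.r x⁻¹ = t.data.l x ∧
    x ^ t.data.N * t.data.f x⁻¹ = x * t.data.f x

/-- DATA. see `GoalData2` (prove both together) -/
def GoalData1 : Prop := ∀ (t : Tangle false),
  ∀ x : ℝ, 0 < x → 0 < t.data.l x ∧ 0 < t.data.f x ∧
    x ^ t.data.N * t.data.l x⁻¹ = t.data.l x ∧ x ^ t.data.N * t.data.f x⁻¹ = x * t.data.f x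

/-- DETBLOCK. `det = det A₁ · det (A₂ - B₂ A₁⁻¹ B₁)` (`Matrix.det_fromBlocks₁₁`), where
`A₁⁻¹ (single v q c)` has column `q` equal to `h₁` and other columns `0`; so
`B₂ A₁⁻¹ B₁ = single w q (d * h₁ p)` and `det (A₂ - single w q (d * h₁ p)) =
det A₂ · (1 - d * h₁ p * A₂⁻¹ q w) = det A₂ · (1 - h₁ p * h₂ q)`. -/
def GoalDetBlock : Prop :=
  ∀ {V W : Type} [Fintype V] [DecidableEq V] [Fintype W] [DecidableEq W]
    (A₁ : Matrix V V ℝ) (A₂ : Matrix W W ℝ) (v p : V) (w q : W) (c d : ℝ)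
    (h₁ : V → ℝ) (h₂ : W → ℝ), A₁.det ≠ 0 → A₂.det ≠ 0 →
    A₁.mulVec h₁ = Pi.single v c → A₂.mulVec h₂ = Pi.single w d →
    (Matrix.fromBlocks A₁ (-Matrix.single v q c) (-Matrix.single w p d) A₂).det =
      A₁.det * A₂.det * (1 - h₁ p * h₂ q)

/-- DETONE. The same for one matrix (rank one update): `det (A - single v q c) =
det A · (1 - h q)` if `A h = c e_v`. -/
def GoalDetOne : Prop :=
  ∀ {V : Type} [Fintype V] [DecidableEq V] (A : Matrix V V ℝ) (v q : V) (c : ℝ)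
    (h : V → ℝ), A.det ≠ 0 → A.mulVec h = Pi.single v c →
    (A - Matrix.single v q c).det = A.det * (1 - h q)

/-- MATBLOCK. Block forms of the open matrices (unfold, cases on rows and columns; the only
rows in which something happens are the marked ones). -/
def GoalMatStack : Prop := ∀ (S T : Tangle true) (x : ℝ),
  openMat true (Tangle.stack S T).diag x =
    Matrix.fromBlocks (openMat true S.diag x)
      (-Matrix.single S.diag.l (T.diag.D.underNext T.diag.l) (fwd S.diag.D x S.diag.l))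
      (-Matrix.single (T.diag.D.overNext T.diag.r) S.diag.r
        (bwd T.diag.D x (T.diag.D.overNext T.diag.r)))
      (openMat true T.diag x)

/-- MATBLOCK. -/
def GoalMatBeside : Prop := ∀ (P : Tangle false) (T : Tangle true) (x : ℝ),
  P.diag.l ≠ P.diag.r →
  openMat true (Tangle.beside P T).diag x =
    Matrix.fromBlocks (openMat false P.diag x)
      (-Matrix.single P.diag.r (T.diag.D.underNext T.diag.l) (fwd P.diag.D x P.diag.r))
      (-Matrix.single T.diag.l (P.diag.D.underNext P.diag.r) (fwd T.diag.D x T.diag.l))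
      (openMat true T.diag x)

/-- MATBLOCK. -/
def GoalMatOpposite : Prop := ∀ (S T : Tangle true) (x : ℝ),
  openMat false (Tangle.opposite S T).diag x =
    Matrix.fromBlocks (openMat true S.diag x)
      (-Matrix.single (S.diag.D.overNext S.diag.r) T.diag.r
        (bwd S.diag.D x (S.diag.D.overNext S.diag.r)))
      (-Matrix.single (T.diag.D.overNext T.diag.r) S.diag.r
        (bwd T.diag.D x (T.diag.D.overNext T.diag.r)))
      (openMat true T.diag x)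

/-- MATBLOCK. -/
def GoalMatSum : Prop := ∀ (P Q : Tangle false) (x : ℝ),
  P.diag.l ≠ P.diag.r → Q.diag.l ≠ Q.diag.r →
  openMat false (Tangle.sum P Q).diag x =
    Matrix.fromBlocks (openMat false P.diag x)
      (-Matrix.single P.diag.r (Q.diag.D.underNext Q.diag.l) (fwd P.diag.D x P.diag.r))
      (-Matrix.single Q.diag.l (P.diag.D.underNext P.diag.r) (fwd Q.diag.D x Q.diag.l))
      (openMat false Q.diag x)

/-- positivity and the linear relation for the values of a parallel tangle -/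
def Vals (L R b : ℝ → ℝ) : Prop :=
  ∀ x : ℝ, 0 < x → 0 < L x ∧ 0 < R x ∧ 0 < b x ∧ L x - R x = (1 - x) * b x

/-- RESPCROSS. `V = Unit`, `openMat = (1 + x)`, `j = 0`, `h = (s + x t) / (1 + x)`. -/
def GoalRespCross : Prop :=
  Resp2 Tangle.cross.diag 0 (fun _ => 1) (fun x => x) (fun _ => 1)

/-- RESPSTACK. Write `aᵢ = bᵢ + Rᵢ = x bᵢ + Lᵢ`, `a = b + R` for the result; `a = a₁ a₂ - x b₁ b₂`.
Determinant: GoalMatStack and GoalDetBlock with `h₁` the solution of `S` for `(s,t) = (1,0)`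
(`h₁ (S.r) = b₁ / a₁`), `h₂` the solution of `T` for `(0,1)` (`h₂ (underNext T.l) = x b₂ / a₂`).
Solution for `(s,t)`: put `g = (a₁ L₂ s + x b₂ R₁ t) / a`, `m = (b₁ g + R₁ t) / a₁`; then
`a₂ g = L₂ s + x b₂ m`. Take `h = Sum.elim h₁ h₂`, `h₁` the solution of `S` for `(g, t)`, `h₂`
the solution of `T` for `(s, m)`; so `h₁ (S.r) = m`, `h₂ (underNext T.l) = g`, and the equation
is `Matrix.fromBlocks_mulVec`. Values: `underNext` of the new `l = inr T.l` is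
`inl (underNext S.l)`, so the value is `(L₁ g + x b₁ t) / a₁ = (L₁ L₂ s + x b t) / a`; the value
at `r = inr T.r` is `(b₂ s + R₂ m) / a₂ = (b s + R₁ R₂ t) / a`. -/
def GoalRespStack : Prop := GoalMatStack → GoalDetBlock →
  ∀ (S T : Tangle true) (j₁ j₂ : ℤ) (L₁ R₁ b₁ L₂ R₂ b₂ : ℝ → ℝ),
    Vals L₁ R₁ b₁ → Vals L₂ R₂ b₂ → Resp2 S.diag j₁ L₁ R₁ b₁ → Resp2 T.diag j₂ L₂ R₂ b₂ →
    Resp2 (Tangle.stack S T).diag (j₁ + j₂) (fun x => L₁ x * L₂ x) (fun x => R₁ x * R₂ x)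
      (fun x => R₁ x * b₂ x + b₁ x * L₂ x)

/-- RESPBESIDE. `c = A + x B` (P), `a = b + R` (T), `a' = B a + A b` (result `b' = B b`,
`L' = B L + A b`, `R' = B R + A b`); `a c - A L = x a'`.
Determinant: GoalMatBeside, GoalDetBlock with `h₁` the solution of `P` for `(0,1)`
(`h₁ (underNext P.r) = A / c`), `h₂` the solution of `T` for `(1,0)`
(`h₂ (underNext T.l) = L / a`): `x^(j₁+j₂) c a (1 - A L / (a c)) = x^(j₁+j₂+1) a'`.
Solution for `(s,t)`: `g` = value at `underNext T.l`, `m` = value at `underNext P.r`: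
`a g = L m + x b t`, `c m = x B s + A g`; so `g = (B L s + b c t) / a'`,
`m = (B a s + A b t) / a'`. `h₁` = solution of `P` for `(s, g)`, `h₂` = solution of `T` for
`(m, t)`. Value at the new `underNext l = inl (underNext P.l)`: `(A s + x B g) / c`, equal to
`(L' s + x b' t) / a'`; value at `inr T.r`: `(b m + R t) / a = (b' s + R' t) / a'`. -/
def GoalRespBeside : Prop := GoalMatBeside → GoalDetBlock →
  ∀ (P : Tangle false) (T : Tangle true) (j₁ j₂ : ℤ) (A B L R b : ℝ → ℝ),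
    (∀ x, 0 < x → 0 < A x ∧ 0 < B x) → Vals L R b →
    Resp1 P.diag j₁ A B → Resp2 T.diag j₂ L R b →
    Resp2 (Tangle.beside P T).diag (j₁ + j₂ + 1) (fun x => B x * L x + A x * b x)
      (fun x => B x * R x + A x * b x) (fun x => B x * b x)

/-- RESPOPPOSITE. `A = R₁ b₂ + b₁ L₂`, `B = b₁ b₂`, `A + x B = a₁ a₂ - R₁ R₂`.
Determinant: GoalMatOpposite and GoalDetBlock: `h₁` = solution of `S` for `(0,1)`,
`h₁ (S.r) = R₁ / a₁`, `h₂` the same for `T`. (`l ≠ r` is `inl ≠ inr`.)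
Solution for `(s,t)`: `m₁` = value at `S.r`, `m₂` = value at `T.r`: `a₁ m₁ = b₁ s + R₁ m₂`,
`a₂ m₂ = b₂ t + R₂ m₁`; so `(A + x B) m₁ = a₂ b₁ s + R₁ b₂ t`, `(A + x B) m₂ = a₁ b₂ t + R₂ b₁ s`.
`h₁` = solution of `S` for `(s, m₂)`, `h₂` = solution of `T` for `(t, m₁)`. Value at
`inl (underNext S.l)`: `(L₁ s + x b₁ m₂) / a₁ = (A s + x B t) / (A + x B)`, the other by symmetry
(`A = R₂ b₁ + b₂ L₁` too). -/
def GoalRespOpposite : Prop := GoalMatOpposite → GoalDetBlock →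
  ∀ (S T : Tangle true) (j₁ j₂ : ℤ) (L₁ R₁ b₁ L₂ R₂ b₂ : ℝ → ℝ),
    Vals L₁ R₁ b₁ → Vals L₂ R₂ b₂ → Resp2 S.diag j₁ L₁ R₁ b₁ → Resp2 T.diag j₂ L₂ R₂ b₂ →
    Resp1 (Tangle.opposite S T).diag (j₁ + j₂) (fun x => R₁ x * b₂ x + b₁ x * L₂ x)
      (fun x => b₁ x * b₂ x)

/-- RESPSUM. `cᵢ = Aᵢ + x Bᵢ`, `A = A₁ B₂ + B₁ A₂`, `B = B₁ B₂`, `c₁ c₂ - A₁ A₂ = x (A + x B)`.
Determinant: GoalMatSum, GoalDetBlock with `h₁` = solution of `P` for `(0,1)` (value `A₁ / c₁`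
at `underNext P.r`), `h₂` = solution of `Q` for `(1,0)` (value `A₂ / c₂` at `underNext Q.l`).
Solution for `(s,t)`: `g` = value at `underNext Q.l`, `m` = value at `underNext P.r`:
`c₂ g = A₂ m + x B₂ t`, `c₁ m = x B₁ s + A₁ g`; `(A + x B) g = A₂ B₁ s + c₁ B₂ t`,
`(A + x B) m = c₂ B₁ s + A₁ B₂ t`. `h₁` = solution of `P` for `(s, g)`, `h₂` = solution of `Q`
for `(m, t)`. -/
def GoalRespSum : Prop := GoalMatSum → GoalDetBlock →
  ∀ (P Q : Tangle false) (j₁ j₂ : ℤ) (A₁ B₁ A₂ B₂ : ℝ → ℝ),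
    (∀ x, 0 < x → 0 < A₁ x ∧ 0 < B₁ x) → (∀ x, 0 < x → 0 < A₂ x ∧ 0 < B₂ x) →
    Resp1 P.diag j₁ A₁ B₁ → Resp1 Q.diag j₂ A₂ B₂ →
    Resp1 (Tangle.sum P Q).diag (j₁ + j₂ + 1) (fun x => A₁ x * B₂ x + B₁ x * A₂ x)
      (fun x => B₁ x * B₂ x)

/-- RESPTURN. `openMat false (turn P) x = x • openMat false P x⁻¹` (the weights satisfy
`fwd' x v = x * fwd x⁻¹ v`, `bwd' x v = x * bwd x⁻¹ v`; the rows `l`, `r` have no step along
`underNext`, so the swap plays no role; here `l ≠ r` is used). So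
`det = x^|V| * x^(-j) * (a(1/x) + x⁻¹ b(1/x)) = x^(|V| - j - N) (a + b)` and the new `a' + x b'` is
`x (b + a)`; new exponent `|V| - j - N - 1`. The solution for `(s,t)` at `x` is the solution of
`P` for `(s,t)` at `x⁻¹`; the new `underNext l` is `underNext P.r` and vice versa. -/
def GoalRespTurn : Prop :=
  ∀ (P : Tangle false) (j N : ℤ) (a b : ℝ → ℝ), (∀ x, 0 < x → 0 < a x ∧ 0 < b x) →
    (∀ x, 0 < x → x ^ N * a x⁻¹ = a x ∧ x ^ N * b x⁻¹ = x * b x) →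
    Resp1 P.diag j a b →
    ∃ j' : ℤ, Resp1 (Tangle.turn P).diag j' (fun x => x * b x) a

/-- RESPFLIP. Let `k` be the index, `ω v = x^(-k v)`, so (Index) `ω v * fwd v` is constant
along `v → underNext v`, `ω v * bwd v` is constant along `v → overNext v`, `ω l * fwd l = 1`,
`ω r * bwd r = x`. With `A = openMat true T x`, `A' = openMat true (flip T) x⁻¹`:
`A' v w = x⁻¹ * (ω v)⁻¹ * A w v * ω w`. So `det A' = x^(-|V|) det A`, new exponent
`|V| - j - N` (replace `x` by `x⁻¹`). Solutions: `A' h' = single r (fwd x⁻¹ r * s) + single i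
(bwd x⁻¹ i * t)` (`i = underNext l`, `o = overNext r`) means `h' = ω⁻¹ g`, `Aᵀ g = single r
(x s) + single i t`, so `g = x s (A⁻¹)_{r,·} + t (A⁻¹)_{i,·}`; the needed entries are
`(A⁻¹)_{i,o} = x b / (a bwd o)`, `(A⁻¹)_{r,o} = R / (a bwd o)`, `(A⁻¹)_{i,l} = L / (a fwd l)`,
`(A⁻¹)_{r,l} = b / (a fwd l)` by the two solutions of `A` for `(0,1)`, `(1,0)`. So
`h' o = (R s + b t) / a`, `h' l = (x b s + L t) / a`; multiply the required equations at `x⁻¹`
by `x^N`. -/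
def GoalRespFlip : Prop :=
  ∀ (T : Tangle true) (j N : ℤ) (L R b : ℝ → ℝ) (k : T.diag.V → ℤ),
    Index true T.diag k → Vals L R b →
    (∀ x, 0 < x → x ^ N * L x⁻¹ = R x ∧ x ^ N * R x⁻¹ = L x ∧ x ^ N * b x⁻¹ = x * b x) →
    Resp2 T.diag j L R b →
    ∃ j' : ℤ, Resp2 (Tangle.flip T).diag j' L R b

/-- RESPALL (assembly by induction on the tangle). -/
def GoalRespAll : Prop :=
  GoalIndex → GoalData2 → GoalData1 → GoalRespCross →
  (GoalMatStack ∧ GoalMatBeside ∧ GoalMatOpposite ∧ GoalMatSum ∧ GoalDetBlock) →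
  GoalRespStack → GoalRespBeside → GoalRespOpposite → GoalRespSum → GoalRespTurn →
  GoalRespFlip →
  (∀ T : Tangle true, ∃ j, Resp2 T.diag j T.data.l T.data.r T.data.f) ∧
  (∀ P : Tangle false, ∃ j, Resp1 P.diag j P.data.l P.data.f)

/-- COFACTOR. Let `M 1 = 0`, `ω M = 0` with `ω v₀ ≠ 0`, and `M₁ = M + single v₀ q₀ c`
invertible. Then `M` has the kernel `ℝ 1` and the left kernel `ℝ ω`: if `M z = 0` then
`M₁ z = c z(q₀) e_{v₀} = z(q₀) M₁ 1`; if `z M = 0` then `z M₁ = c z(v₀) e_{q₀} =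
(z(v₀)/ω(v₀)) ω M₁`. `det M = 0`, so the columns of `adjugate M` lie in `ℝ 1` and the rows in
`ℝ ω`; `det M₁ = det M + c adjugate M q₀ v₀`. So `adjugate M u u = adjugate M u v₀ * ω u / ω v₀ =
adjugate M q₀ v₀ * ω u / ω v₀ = det M₁ / c * ω u / ω v₀`. And the determinant without row and
column `u` is `adjugate M u u` (`Matrix.adjugate_apply`, then a block triangular matrix). -/
def GoalCofactor : Prop :=
  ∀ {V : Type} [Fintype V] [DecidableEq V] (M : Matrix V V ℝ) (ω : V → ℝ) (v₀ q₀ u : V)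
    (c : ℝ), M.mulVec (fun _ => 1) = 0 → Matrix.vecMul ω M = 0 → ω v₀ ≠ 0 → c ≠ 0 →
    (M + Matrix.single v₀ q₀ c).det ≠ 0 →
    (M.submatrix (Subtype.val : {v : V // v ≠ u} → V) Subtype.val).det =
      (M + Matrix.single v₀ q₀ c).det / c * (ω u / ω v₀)

/-- CLOSE. Evaluate `D.alexanderMatrix` at `X = -x`: this is `lap D x`. Row sums `0` are clear
(`fwd + bwd = 1 + x`); for `ω v = x^(-k v)` the column sums of `ω v * lap v w` are `0` by Index.
`det (lap + stepU l)`: it is `openMat - stepO r` resp. `openMat - stepU r`, so by DETONE and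
the solution for `(0,1)` it is `x^j a (1 - R/a) = x^j b` resp.
`x^j (a + x b) (1 - a/(a + x b)) = x^(j+1) b`. Then COFACTOR with `v₀ = l`, `q₀ = underNext l`,
`c = fwd l`, `ω l * fwd l = 1`. -/
def GoalClose : Prop := GoalIndex → GoalCofactor → GoalDetOne →
  (∀ (T : Tangle true) (j : ℤ), Vals T.data.l T.data.r T.data.f →
    Resp2 T.diag j T.data.l T.data.r T.data.f →
    ∃ k : T.diag.V → ℤ, ∀ u : T.diag.V, ∀ x : ℝ, 0 < x →
      aeval (-x) (T.diag.D.alexander u) = x ^ (k u) * aeval x T.data.b) ∧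
  (∀ (P : Tangle false) (j : ℤ), (∀ x, 0 < x → 0 < P.data.l x ∧ 0 < P.data.f x) →
    Resp1 P.diag j P.data.l P.data.f →
    ∃ k : P.diag.V → ℤ, ∀ u : P.diag.V, ∀ x : ℝ, 0 < x →
      aeval (-x) (P.diag.D.alexander u) = x ^ (k u) * aeval x P.data.b)

/-- coefficients as a function on `ℤ` -/
noncomputable def seq (p : ℤ[X]) (i : ℤ) : ℝ := if 0 ≤ i then (p.coeff i.toNat : ℝ) else 0

/-- COEFF. If `Q(-x) = x^m b(x)` for all `x > 0` then `(-1)^i Q_i = b_(i-m)` (two polynomials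
that agree at infinitely many points are equal; `m ≥ 0`: `Q(-X) = X^m b`, `m < 0`:
`X^(-m) Q(-X) = b`). -/
def GoalCoeff : Prop := ∀ (Q b : ℤ[X]) (m : ℤ),
  (∀ x : ℝ, 0 < x → (aeval (-x) Q : ℝ) = x ^ m * aeval x b) →
  ∀ i : ℕ, (-1 : ℝ) ^ i * (Q.coeff i : ℝ) = seq b (i - m)

/-! ### Part B: sequences -/

/-- convolution of functions on `ℤ` -/
noncomputable def conv (f g : ℤ → ℝ) (v : ℤ) : ℝ := ∑ᶠ i : ℤ, f i * g (v - i)

/-- SEQMUL. -/
def GoalSeqMul : Prop :=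
  (∀ p : ℤ[X], (Function.support (seq p)).Finite) ∧
  (∀ p q : ℤ[X], seq (p * q) = conv (seq p) (seq q)) ∧
  (∀ p q : ℤ[X], seq (p + q) = seq p + seq q) ∧
  (∀ p : ℤ[X], ∀ i, seq (X * p) i = seq p (i - 1)) ∧
  (∀ i, seq 1 i = if i = 0 then 1 else 0)

/-- CB (Cauchy-Binet). Write `M = v - I`, `N = v - J`. Both products are sums over all
`(I, J)` in `ℤ × ℤ` (finite support): `conv f h v * conv g h v = ∑ h I h J f M g N`,
`conv f h (v+1) * conv g h (v-1) = ∑ h (I+1) h (J-1) f M g N` (with `f (v+1-i)`, `i = I+1`). So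
the difference is `∑_{(I,J)} H(I,J) f M g N`, `H(I,J) = h I h J - h (I+1) h (J-1)`, and
`H(J-1, I+1) = -H(I,J)`. The map `(I,J) -> (J-1,I+1)` exchanges `J ≤ I` and `I + 2 ≤ J`, and
`H = 0` for `J = I + 1`. So the difference is
`∑_{J ≤ I} H(I,J) (f M g N - f (N+1) g (M-1))`, all terms are nonnegative (`M ≤ N`). -/
def GoalCB : Prop := ∀ f g h : ℤ → ℝ,
  (Function.support f).Finite → (Function.support g).Finite → (Function.support h).Finite →
  (∀ I J, J ≤ I → h (I + 1) * h (J - 1) ≤ h I * h J) →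
  (∀ M N, M ≤ N → f (N + 1) * g (M - 1) ≤ f M * g N) →
  ∀ v, conv f h (v + 1) * conv g h (v - 1) ≤ conv f h v * conv g h v

/-- the relation `b - x b = L - R` and finite supports -/
def Rel (L R b : ℤ → ℝ) : Prop :=
  (Function.support L).Finite ∧ (Function.support R).Finite ∧ (Function.support b).Finite ∧
  ∀ s, b s - b (s - 1) = L s - R s

/-- nested minors -/
def Nested (L R b : ℤ → ℝ) : Prop := ∀ I J : ℤ, J ≤ I →
  L (I + 1) * b (J - 1) ≤ L I * b J ∧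
  L (I + 1) * R (J - 1) ≤ L I * R J ∧
  (b (I + 1) + R (I + 1)) * b (J - 1) ≤ b I * (b J + R J)

/-- PROD (the main identity). Put `a = b + R = xb + L` (`(xb) s = b (s-1)`), `M = v - I`,
`N = v - J`, `A(I,J) = L I b J - L (I+1) b (J-1)`, `B(I,J) = L I R J - L (I+1) R (J-1)`,
`C(I,J) = b I a J - a (I+1) b (J-1) = b I L J - L (I+1) b (J-1)`, and indices 1, 2 for the two
tangles. CLAIM: with `b₁₂ = R₁*b₂ + b₁*L₂`, `a₁₂ = b₁₂ + R₁*R₂` (`= x b₁₂ + L₁*L₂`)
`a₁₂ v b₁₂ v - a₁₂ (v+1) b₁₂ (v-1) = ∑_{J ≤ I} (A₁(I,J) A₂(N,M) + B₁(I,J) C₂(N,M) + C₁(I,J) B₂(N,M))`.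
PROOF. (1) The left side is `L₁₂ v b₁₂ v - L₁₂ (v+1) b₁₂ (v-1)`, and this is
`∑_{(I,J) ∈ ℤ²} (R₁ I L₁ J X₂(M,N) + X₁(I,J) L₂ M L₂ N)`, `X(i,j) = b i L j - b (i-1) L (j+1)`
(expand, `L₁₂ (v+1) = ∑ L₁ J L₂(N+1)` resp. `∑ L₁(J+1) L₂ N`).
(2) Trivial: `X(I,J) + X(J,I) = C(I,J) - C(I-1,J+1)`, `X(I,I) = C(I,I)`, `C(J,J+1) = 0`,
`A(I,J) = X(J,I)`.
(3) Second sum: pair `(I,J)` with `(J,I)` and use (2) and the shift `(I,J) -> (I+1,J-1)`: it is
`∑_{J ≤ I} C₁(I,J) (L₂ M L₂ N - L₂ (M-1) L₂ (N+1))`.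
(4) First sum: for `J < I` the pair `(J,I)` gives `R₁ J L₁ I X₂(N,M)`,
`X₂(N,M) = C₂(N,M) - C₂(N-1,M+1) - X₂(M,N)`; after the same shift the first sum is
`∑_{J ≤ I} ((R₁ I L₁ J - R₁ J L₁ I) X₂(M,N) + B₁(I,J) C₂(N,M))`.
(5) `L₂ M L₂ N - L₂(M-1) L₂(N+1) = B₂(N,M) + (X₂(M,N) - X₂(M-1,N))` (write one factor
`L₂ = R₂ + b₂ - x b₂`: `L₂ M = R₂ M + b₂ M - b₂ (M-1)`, `L₂ (M-1) = R₂(M-1) + b₂(M-1) - b₂(M-2)`).
(6) `∑_{J ≤ I} C₁(I,J) (X₂(M,N) - X₂(M-1,N)) = ∑_{J ≤ I} (C₁(I,J) - C₁(I-1,J)) X₂(M,N)`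
(shift `I`, and `C₁(J-1,J) = 0`), and `C₁(I,J) - C₁(I-1,J) + R₁ I L₁ J - R₁ J L₁ I = X₁(J,I)`
(pointwise, from `b - xb = L - R`). Since `X₁(J,I) X₂(M,N) = A₁(I,J) A₂(N,M)`, done.
Only the inequality is needed. -/
def GoalProd : Prop := ∀ L₁ R₁ b₁ L₂ R₂ b₂ : ℤ → ℝ,
  Rel L₁ R₁ b₁ → Rel L₂ R₂ b₂ → Nested L₁ R₁ b₁ → Nested L₂ R₂ b₂ →
  ∀ v, (conv R₁ b₂ (v + 1) + conv b₁ L₂ (v + 1) + conv R₁ R₂ (v + 1)) *
      (conv R₁ b₂ (v - 1) + conv b₁ L₂ (v - 1)) ≤
    (conv R₁ b₂ v + conv b₁ L₂ v + conv R₁ R₂ v) * (conv R₁ b₂ v + conv b₁ L₂ v)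

/-- Small pairs: `b` lives on `[k, N-1-k]`, `a` on `[k', N-k']`. -/
structure Good1 (N k k' : ℤ) (a b : ℤ → ℝ) : Prop where
  hk : k' = k ∨ k' = k + 1
  ne : k ≤ N - 1 - k
  ne' : k' ≤ N - k'
  a0 : ∀ s, s < k' ∨ N - k' < s → a s = 0
  a1 : ∀ s, k' ≤ s → s ≤ N - k' → 0 < a s
  b0 : ∀ s, s < k ∨ N - 1 - k < s → b s = 0
  b1 : ∀ s, k ≤ s → s ≤ N - 1 - k → 0 < b s
  pa : ∀ s, a (N - s) = a s
  pb : ∀ s, b (N - 1 - s) = b s
  s2 : ∀ s, a (s + 1) * b (s - 1) ≤ a s * b s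

/-- Small parallel tangles; `R s = L (N - s)`, `a = b + R`. -/
structure Good2 (N k : ℤ) (L b : ℤ → ℝ) : Prop where
  L0 : ∀ s, 0 ≤ L s
  rel : ∀ s, b s - b (s - 1) = L s - L (N - s)
  half : Good1 N k k (fun s => b s + L (N - s)) b

/-- NEST1. By `s2` and the symmetries `b s a (s+1) ≥ a s b (s+1)`; multiplying with `s2` and
cancelling `a s a (s+1)` gives `b (s+1) b (s-1) ≤ b s ^ 2`; positivity on an interval gives the
nested form. `a (I+1) b (J-1) ≤ b I a J` (`J ≤ I`): if `a (I+1) b (J-1) ≠ 0` then all of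
`b (J-1), .., b I` and `a J, .., a (I+1)` are positive, and `a (s+1)/b s ≤ a s/b (s-1)` for
`J ≤ s ≤ I`. -/
def GoalNest1 : Prop := ∀ N k k' : ℤ, ∀ a b : ℤ → ℝ, Good1 N k k' a b →
  (∀ I J, J ≤ I → b (I + 1) * b (J - 1) ≤ b I * b J) ∧
  (∀ M N', M ≤ N' → a (N' + 1) * b (M - 1) ≤ a M * b N')

/-- NEST2. The third inequality is NEST1. First: `L s = a s - b (s-1)`, and `b (s-1)/a s` is
nondecreasing, so `L (I+1) a I ≤ L I a (I+1)`; and `a (I+1) b (J-1) ≤ a I b J` (`s2` at `I` and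
`b (J-1)/b J ≤ b (I-1)/b I`); multiply. Second: `R = a - b` and `a/b` is nondecreasing, so
`R (J-1) b J ≤ R J b (J-1)`; multiply with `L (I+1) a I ≤ L I a (I+1)` and
`a (I+1) b (J-1) ≤ a I b J`. (Where a factor vanishes use the supports.) -/
def GoalNest2 : Prop := ∀ N k : ℤ, ∀ L b : ℤ → ℝ, Good2 N k L b →
  Nested L (fun s => L (N - s)) b

/-- GOODTURN. -/
def GoalGoodTurn : Prop := ∀ N k k' : ℤ, ∀ a b : ℤ → ℝ, Good1 N k k' a b →
  Good1 (N + 1) k' (k + 1) (fun s => b (s - 1)) a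

/-- GOODSUM. Supports of convolutions of functions that are positive on intervals; `s2` by CB
applied to `(f,g,h) = (a₁,b₁,b₂)` and `(a₂,b₂,b₁)` with NEST1. -/
def GoalGoodSum : Prop := GoalCB → GoalNest1 →
  ∀ N₁ k₁ k₁' N₂ k₂ k₂' : ℤ, ∀ a₁ b₁ a₂ b₂ : ℤ → ℝ,
  Good1 N₁ k₁ k₁' a₁ b₁ → Good1 N₂ k₂ k₂' a₂ b₂ →
  ∃ k', Good1 (N₁ + N₂ - 1) (k₁ + k₂) k' (conv a₁ b₂ + conv b₁ a₂) (conv b₁ b₂)

/-- GOODBESIDE. Pair `(A,B)`, tangle `(L,b)`: new `L' = B*L + A*b`, `b' = B*b`,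
`a' = b' + R' = B*a + A*b`; `s2` by CB for `(a,b,B)` and `(A,B,b)` with NEST1. -/
def GoalGoodBeside : Prop := GoalCB → GoalNest1 →
  ∀ N₁ k₁ k₁' N₂ k₂ : ℤ, ∀ A B L b : ℤ → ℝ,
  Good1 N₁ k₁ k₁' A B → Good2 N₂ k₂ L b →
  Good2 (N₁ - 1 + N₂) (k₁ + k₂) (conv B L + conv A b) (conv B b)

/-- GOODSTACK. `L = L₁*L₂`, `b = R₁*b₂ + b₁*L₂`, `R = R₁*R₂`, `a = b + R`. `rel`: `b - xb =
R₁*(L₂-R₂) + (L₁-R₁)*L₂`. Symmetry of `b`: `R₁*b₂ + b₁*L₂ = L₁*b₂ + b₁*R₂` (both equal, multiply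
the difference by `1 - x`: finite supports) and reversal. Positivity: with `i = N₁ - k₁`,
`R₁ i = a₁ i > 0` and `L₂ k₂ = a₂ k₂ > 0`: `b v ≥ R₁ i * b₂ (v-i)` and `b v ≥ b₁ (v-k₂) * L₂ k₂`
cover `[k₁+k₂, N₁+N₂-1-k₁-k₂]`; the same with `a = R₁*a₂ + b₁*L₂` for `a`. `s2` is PROD with
NEST2. -/
def GoalGoodStack : Prop := GoalProd → GoalNest2 →
  ∀ N₁ k₁ N₂ k₂ : ℤ, ∀ L₁ b₁ L₂ b₂ : ℤ → ℝ,
  Good2 N₁ k₁ L₁ b₁ → Good2 N₂ k₂ L₂ b₂ →
  Good2 (N₁ + N₂) (k₁ + k₂) (conv L₁ L₂) (conv (fun s => L₁ (N₁ - s)) b₂ + conv b₁ L₂)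

/-- GOODCROSS. -/
def GoalGoodCross : Prop :=
  Good2 1 0 (fun s => if s = 0 then 1 else 0) (fun s => if s = 0 then 1 else 0)

/-- PAL. By induction: coefficients of `R` are the reversed coefficients of `L`, `b` and (for
antiparallel tangles) `a` are palindromic. Reversal of products: `conv f g (n + m - i) =
conv (f (n - ·)) (g (m - ·)) i`. For `stack` and `opposite` use
`R₁ b₂ + b₁ L₂ = L₁ b₂ + b₁ R₂` (from `L - R = (1 - X) b`, GoalData2). -/
def GoalPal : Prop := GoalSeqMul → GoalData2 →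
  (∀ T : Tangle true, (∀ i, seq T.data.R i = seq T.data.L (T.data.N - i)) ∧
    (∀ i, seq T.data.b (T.data.N - 1 - i) = seq T.data.b i)) ∧
  (∀ P : Tangle false, (∀ i, seq P.data.L (P.data.N - i) = seq P.data.L i) ∧
    (∀ i, seq P.data.b (P.data.N - 1 - i) = seq P.data.b i))

/-- GOODALL (assembly by induction). For `opposite S T` with `S = cross`: the data are
`N = T.N`, `L = X * b + L`, which is `a` (`rel`); with `T = cross`: `L = R + b = a`. -/
def GoalGoodAll : Prop := GoalSeqMul → GoalData2 → GoalPal → GoalGoodCross → GoalGoodTurn →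
  (∀ N₁ k₁ k₁' N₂ k₂ k₂' : ℤ, ∀ a₁ b₁ a₂ b₂ : ℤ → ℝ,
    Good1 N₁ k₁ k₁' a₁ b₁ → Good1 N₂ k₂ k₂' a₂ b₂ →
    ∃ k', Good1 (N₁ + N₂ - 1) (k₁ + k₂) k' (conv a₁ b₂ + conv b₁ a₂) (conv b₁ b₂)) →
  (∀ N₁ k₁ k₁' N₂ k₂ : ℤ, ∀ A B L b : ℤ → ℝ,
    Good1 N₁ k₁ k₁' A B → Good2 N₂ k₂ L b →
    Good2 (N₁ - 1 + N₂) (k₁ + k₂) (conv B L + conv A b) (conv B b)) →
  (∀ N₁ k₁ N₂ k₂ : ℤ, ∀ L₁ b₁ L₂ b₂ : ℤ → ℝ,
    Good2 N₁ k₁ L₁ b₁ → Good2 N₂ k₂ L₂ b₂ →
    Good2 (N₁ + N₂) (k₁ + k₂) (conv L₁ L₂) (conv (fun s => L₁ (N₁ - s)) b₂ + conv b₁ L₂)) →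
  (∀ T : Tangle true, T.Small → ∃ k, Good2 T.data.N k (seq T.data.L) (seq T.data.b)) ∧
  (∀ P : Tangle false, P.Small → ∃ k k', Good1 P.data.N k k' (seq P.data.L) (seq P.data.b))

/-! ### Final -/

/-- The main theorem: small tangles have log-concave Alexander polynomials. -/
def Final : Prop := ∀ {s : Bool} (t : Tangle s), t.Small → ∀ u : t.diag.V,
  (∃ e : ℤ, (e = 1 ∨ e = -1) ∧ ∀ k, 0 ≤ e * (-1) ^ k * (t.diag.D.alexander u).coeff k) ∧
  (∀ k, (t.diag.D.alexander u).coeff k * (t.diag.D.alexander u).coeff (k + 2) ≤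
    (t.diag.D.alexander u).coeff (k + 1) ^ 2) ∧
  (∀ i j k, i < j → j < k → (t.diag.D.alexander u).coeff i ≠ 0 →
    (t.diag.D.alexander u).coeff k ≠ 0 → (t.diag.D.alexander u).coeff j ≠ 0) ∧
  t.diag.D.alexander u ≠ 0

end Pool.Agent.Helper37.Arb
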