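import Pool.Agent.Helper37.Arb.GoodTerms

/-! Final assembly -/

namespace Pool.Agent.Helper37.Arb

open Pool.Agent.Helper36.SC Polynomial

/-- positive and log-concave on an interval, zero outside -/
def LCI (f : ℤ → ℝ) : Prop := ∃ p q : ℤ,
  (∀ s, s < p ∨ q < s → f s = 0) ∧ (∀ s, p ≤ s → s ≤ q → 0 < f s) ∧
  (∀ s, f (s + 1) * f (s - 1) ≤ f s ^ 2)

theorem LCI.nonneg {f : ℤ → ℝ} (h : LCI f) (s : ℤ) : 0 ≤ f s := by
  obtain ⟨p, q, h0, h1, _⟩ := h
  by_cases hs : s < p ∨ q < s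
  · rw [h0 s hs]
  · push Not at hs
    exact (h1 s hs.1 hs.2).le

/-- nested log-concavity -/
theorem LCI.nested {f : ℤ → ℝ} (h : LCI f) : ∀ I J : ℤ, J ≤ I →
    f (I + 1) * f (J - 1) ≤ f I * f J := by
  obtain ⟨p, q, h0, h1, h2⟩ := h
  have key : ∀ n : ℕ, ∀ I J : ℤ, I = J + n → f (I + 1) * f (J - 1) ≤ f I * f J := by
    intro n
    induction n with
    | zero =>
      intro I J e
      have e' : I = J := by simpa using e
      subst e'
      have := h2 I
      rw [sq] at this; exact this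
    | succ n ih =>
      intro I J e
      by_cases hz : f (I + 1) * f (J - 1) = 0
      · rw [hz]
        exact mul_nonneg (LCI.nonneg ⟨p, q, h0, h1, h2⟩ I) (LCI.nonneg ⟨p, q, h0, h1, h2⟩ J)
      · have hI : f (I + 1) ≠ 0 := left_ne_zero_of_mul hz
        have hJ : f (J - 1) ≠ 0 := right_ne_zero_of_mul hz
        have hI' : ¬ (I + 1 < p ∨ q < I + 1) := fun h => hI (h0 _ h)
        have hJ' : ¬ (J - 1 < p ∨ q < J - 1) := fun h => hJ (h0 _ h)
        push Not at hI' hJ'
        have e1 : I - 1 = J + n := by push_cast at e; omega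
        have i1 := ih (I - 1) J e1
        have i2 := h2 I
        have pI : 0 < f I := h1 _ (by push_cast at e; omega) (by omega)
        have pI1 : 0 < f (I - 1) := h1 _ (by push_cast at e; omega) (by omega)
        rw [show I - 1 + 1 = I by ring] at i1
        -- f I * f (J-1) ≤ f (I-1) * f J, f (I+1) * f (I-1) ≤ f I ^ 2
        have pJ : 0 ≤ f J := LCI.nonneg ⟨p, q, h0, h1, h2⟩ J
        have pJ1 : 0 ≤ f (J - 1) := LCI.nonneg ⟨p, q, h0, h1, h2⟩ (J - 1)
        have pI2 : 0 ≤ f (I + 1) := LCI.nonneg ⟨p, q, h0, h1, h2⟩ (I + 1)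
        have a1 : f (I - 1) * (f I * (f (I + 1) * f (J - 1))) ≤ f (I - 1) * (f I * (f I * f J)) := by
          calc f (I - 1) * (f I * (f (I + 1) * f (J - 1)))
              = (f (I + 1) * f (I - 1)) * (f I * f (J - 1)) := by ring
            _ ≤ f I ^ 2 * (f (I - 1) * f J) :=
                mul_le_mul i2 i1 (mul_nonneg pI.le pJ1) (by positivity)
            _ = f (I - 1) * (f I * (f I * f J)) := by ring
        exact le_of_mul_le_mul_left (le_of_mul_le_mul_left a1 pI1) pI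
  intro I J h
  refine key (I - J).toNat I J ?_
  omega

theorem conv_term_support {f g : ℤ → ℝ} (hf : (Function.support f).Finite) (v : ℤ) :
    (Function.support fun i : ℤ => f i * g (v - i)).Finite :=
  hf.subset fun i hi => by
    simp only [Function.mem_support] at hi ⊢
    exact left_ne_zero_of_mul hi

theorem conv_pos' {f g : ℤ → ℝ} (hf : (Function.support f).Finite) (f0 : ∀ s, 0 ≤ f s)
    (g0 : ∀ s, 0 ≤ g s) {v i : ℤ} (h1 : 0 < f i) (h2 : 0 < g (v - i)) : 0 < conv f g v := by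
  unfold conv
  have hs := conv_term_support (g := g) hf v
  rw [finsum_eq_sum_of_support_subset _ (s := hs.toFinset) (by simp)]
  refine Finset.sum_pos' (fun j _ => mul_nonneg (f0 _) (g0 _)) ⟨i, ?_, mul_pos h1 h2⟩
  simp only [Set.Finite.mem_toFinset, Function.mem_support]
  exact (mul_pos h1 h2).ne'

theorem conv_zero' {f g : ℤ → ℝ} {v : ℤ} (h : ∀ i, f i * g (v - i) = 0) : conv f g v = 0 := by
  unfold conv
  simp [h]

/-- products of log-concave sequences -/
theorem LCI.conv (hcb : GoalCB) {f g : ℤ → ℝ} (hf : LCI f) (hg : LCI g)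
    (hfe : ∃ s, f s ≠ 0) (hge : ∃ s, g s ≠ 0)
    (ff : (Function.support f).Finite) (fg : (Function.support g).Finite) : LCI (conv f g) := by
  have nf := hf.nonneg
  have ng := hg.nonneg
  have nestf := hf.nested
  have nestg := hg.nested
  obtain ⟨p, q, f0, f1, _⟩ := hf
  obtain ⟨p', q', g0, g1, _⟩ := hg
  have hpq : p ≤ q := by
    obtain ⟨s, hs⟩ := hfe
    by_contra hc
    exact hs (f0 s (by omega))
  have hpq' : p' ≤ q' := by
    obtain ⟨s, hs⟩ := hge
    by_contra hc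
    exact hs (g0 s (by omega))
  refine ⟨p + p', q + q', ?_, ?_, ?_⟩
  · intro s hs
    refine conv_zero' fun i => ?_
    by_cases h : i < p ∨ q < i
    · rw [f0 i h, zero_mul]
    · rw [g0 (s - i) (by omega), mul_zero]
  · intro s h1 h2
    -- choose i = max p (s - q')
    refine conv_pos' ff nf ng (i := max p (s - q')) (f1 _ ?_ ?_) (g1 _ ?_ ?_)
    · exact le_max_left _ _
    · exact max_le hpq (by omega)
    · have : max p (s - q') ≤ s - p' := max_le (by omega) (by omega)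
      omega
    · have : s - q' ≤ max p (s - q') := le_max_right _ _
      omega
  · intro s
    have := hcb f f g ff ff fg (fun I J h => nestg I J h)
      (fun M N h => by have := nestf N M h; rw [mul_comm (f M)]; exact this) s
    rw [sq]; exact this

/-- coefficients of the Alexander polynomial -/
theorem final_of_lci {Q b : ℤ[X]} {m : ℤ} (hc : GoalCoeff)
    (h : ∀ x : ℝ, 0 < x → (aeval (-x) Q : ℝ) = x ^ m * aeval x b)
    (hb : 0 < (aeval (1 : ℝ) b : ℝ)) (hL : LCI (seq b)) :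
    (∀ k, 0 ≤ (-1) ^ k * Q.coeff k) ∧
    (∀ k, Q.coeff k * Q.coeff (k + 2) ≤ Q.coeff (k + 1) ^ 2) ∧
    (∀ i j k, i < j → j < k → Q.coeff i ≠ 0 → Q.coeff k ≠ 0 → Q.coeff j ≠ 0) ∧ Q ≠ 0 := by
  have hco := hc Q b m h
  have nn := hL.nonneg
  obtain ⟨p, q, b0, b1, b2⟩ := hL
  have sgn : ∀ i : ℕ, ((-1 : ℝ) ^ i) ^ 2 = 1 := by
    intro i; rw [← pow_mul, mul_comm, pow_mul]; simp
  have hz : ∀ i : ℕ, Q.coeff i ≠ 0 ↔ seq b (i - m) ≠ 0 := by
    intro i
    rw [← hco i]
    constructor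
    · intro h
      refine mul_ne_zero (pow_ne_zero _ (by norm_num)) ?_
      exact_mod_cast h
    · intro h h'
      apply h
      rw [h']; simp
  refine ⟨?_, ?_, ?_, ?_⟩
  · intro k
    have := nn (k - m)
    rw [← hco k] at this
    exact_mod_cast this
  · intro k
    have e0 := hco k
    have e1 := hco (k + 1)
    have e2 := hco (k + 2)
    have l := b2 ((k + 1 : ℕ) - m)
    rw [show ((k + 1 : ℕ) : ℤ) - m + 1 = ((k + 2 : ℕ) : ℤ) - m by push_cast; ring,
      show ((k + 1 : ℕ) : ℤ) - m - 1 = (k : ℤ) - m by push_cast; ring] at l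
    rw [← e0, ← e1, ← e2] at l
    have s0 := sgn k
    have : (Q.coeff k : ℝ) * (Q.coeff (k + 2) : ℝ) ≤ (Q.coeff (k + 1) : ℝ) ^ 2 := by
      have t1 : (-1 : ℝ) ^ (k + 2) * (Q.coeff (k + 2) : ℝ) * ((-1) ^ k * (Q.coeff k : ℝ)) =
          ((-1 : ℝ) ^ k) ^ 2 * ((Q.coeff k : ℝ) * (Q.coeff (k + 2) : ℝ)) := by ring
      have t2 : ((-1 : ℝ) ^ (k + 1) * (Q.coeff (k + 1) : ℝ)) ^ 2 =
          ((-1 : ℝ) ^ k) ^ 2 * (Q.coeff (k + 1) : ℝ) ^ 2 := by ring
      rw [t1, t2, s0, one_mul, one_mul] at l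
      exact l
    exact_mod_cast this
  · intro i j k hij hjk hi hk
    rw [hz] at hi hk ⊢
    have hi' : ¬ ((i : ℤ) - m < p ∨ q < (i : ℤ) - m) := fun h => hi (b0 _ h)
    have hk' : ¬ ((k : ℤ) - m < p ∨ q < (k : ℤ) - m) := fun h => hk (b0 _ h)
    exact (b1 _ (by omega) (by omega)).ne'
  · intro hQ
    have := h 1 one_pos
    rw [hQ] at this
    simp at this
    rw [← this] at hb
    exact lt_irrefl _ hb

end Pool.Agent.Helper37.Arb
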