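import Pool.Agent.Helper36.SC.Def

/-!
Oriented alternating arborescent tangle diagrams, their diagrams (`AltDiagram` of
`Helper36/SC/Def.lean`), and the recursion for their Alexander polynomials.
-/

namespace Pool.Agent.Helper37.Arb

open Pool.Agent.Helper36.SC Polynomial

/-- Oriented alternating arborescent tangle diagrams.

`Tangle true`: tangles with two ends at the bottom pointing into the tangle and two ends at the
top pointing out of it; the left ends are the incoming overpass (bottom) and the outgoing
underpass (top), the right ends are the incoming underpass and the outgoing overpass.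

`Tangle false`: tangles whose ends point in and out alternately: bottom left in, top left out,
top right in, bottom right out; incoming ends are overpasses, outgoing ends are underpasses. -/
inductive Tangle : Bool → Type
  /-- a single positive crossing -/
  | cross : Tangle true
  /-- `T` on top of `S` -/
  | stack (S T : Tangle true) : Tangle true
  /-- `P` to the left of `T` -/
  | beside (P : Tangle false) (T : Tangle true) : Tangle true
  /-- rotation by the angle `π` about the vertical axis in space -/
  | flip (T : Tangle true) : Tangle true
  /-- `S` to the left of `T`, where `T` is rotated by `π` in the plane -/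
  | opposite (S T : Tangle true) : Tangle false
  /-- `P` to the left of `Q` -/
  | sum (P Q : Tangle false) : Tangle false
  /-- reflection of the diagram in the diagonal through the top left and the bottom right ends -/
  | turn (P : Tangle false) : Tangle false

/-- An alternating link diagram with two marked crossings. A tangle is recorded by the diagram
obtained by joining the two left ends and the two right ends. For `Tangle true` the left ends
are joined by the edge that leaves the crossing `l` on the underpass and the right ends by the
edge that leaves the crossing `r` on the overpass; for `Tangle false` the left and right ends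
are joined by the edges that leave `l` and `r` on the underpass. -/
structure Marked where
  /-- crossings -/
  V : Type
  [dec : DecidableEq V]
  [fin : Fintype V]
  /-- the diagram -/
  D : AltDiagram V
  /-- first marked crossing -/
  l : V
  /-- second marked crossing -/
  r : V

attribute [instance] Marked.dec Marked.fin

section ops

variable {V W : Type}

/-- disjoint union of diagrams -/
def union (D : AltDiagram V) (E : AltDiagram W) : AltDiagram (V ⊕ W) where
  pos := Sum.elim D.pos E.pos
  overNext := Equiv.sumCongr D.overNext E.overNext
  underNext := Equiv.sumCongr D.underNext E.underNext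

variable [DecidableEq V]

/-- exchange the ends of the edges that leave `v` and `w` on the underpass -/
def swapUnder (D : AltDiagram V) (v w : V) : AltDiagram V where
  pos := D.pos
  overNext := D.overNext
  underNext := (Equiv.swap v w).trans D.underNext

/-- exchange the ends of the edges that leave `v` and `w` on the overpass -/
def swapOver (D : AltDiagram V) (v w : V) : AltDiagram V where
  pos := D.pos
  overNext := (Equiv.swap v w).trans D.overNext
  underNext := D.underNext

end ops

/-- the marked diagram of a tangle -/
def Tangle.diag : ∀ {s : Bool}, Tangle s → Marked
  | _, .cross =>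
    { V := Unit
      D := ⟨fun _ => true, Equiv.refl _, Equiv.refl _⟩
      l := ()
      r := () }
  | _, .stack S T =>
    { V := S.diag.V ⊕ T.diag.V
      D := swapOver (swapUnder (union S.diag.D T.diag.D) (.inl S.diag.l) (.inr T.diag.l))
        (.inl S.diag.r) (.inr T.diag.r)
      l := .inr T.diag.l
      r := .inr T.diag.r }
  | _, .beside P T =>
    { V := P.diag.V ⊕ T.diag.V
      D := swapUnder (union P.diag.D T.diag.D) (.inl P.diag.r) (.inr T.diag.l)
      l := .inl P.diag.l
      r := .inr T.diag.r }
  | _, .flip T =>
    { V := T.diag.V
      D := ⟨T.diag.D.pos, T.diag.D.underNext, T.diag.D.overNext⟩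
      l := T.diag.r
      r := T.diag.l }
  | _, .opposite S T =>
    { V := S.diag.V ⊕ T.diag.V
      D := swapOver (union S.diag.D T.diag.D) (.inl S.diag.r) (.inr T.diag.r)
      l := .inl S.diag.l
      r := .inr T.diag.l }
  | _, .sum P Q =>
    { V := P.diag.V ⊕ Q.diag.V
      D := swapUnder (union P.diag.D Q.diag.D) (.inl P.diag.r) (.inr Q.diag.l)
      l := .inl P.diag.l
      r := .inr Q.diag.r }
  | _, .turn P =>
    { V := P.diag.V
      D := ⟨fun v => !P.diag.D.pos v, P.diag.D.overNext,
        (Equiv.swap P.diag.l P.diag.r).trans P.diag.D.underNext⟩
      l := P.diag.l
      r := P.diag.r }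

/-- The tangles for which log-concavity is proved: in every `opposite S T` one of the two tangles
is a single crossing. -/
def Tangle.Small : ∀ {s : Bool}, Tangle s → Prop
  | _, .cross => True
  | _, .stack S T => S.Small ∧ T.Small
  | _, .beside P T => P.Small ∧ T.Small
  | _, .flip T => T.Small
  | _, .opposite S T => S.Small ∧ T.Small ∧ (S = .cross ∨ T = .cross)
  | _, .sum P Q => P.Small ∧ Q.Small
  | _, .turn P => P.Small

/-- Polynomial data of a tangle: for `Tangle true` the polynomials `L, R, b` (with
`L - R = (1 - X) b`), for `Tangle false` the polynomials `a, b` (and `R` unused). -/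
structure Data where
  /-- degree -/
  N : ℤ
  /-- `L` of a parallel tangle, `a` of an antiparallel tangle -/
  L : ℤ[X]
  /-- `R` of a parallel tangle -/
  R : ℤ[X]
  /-- the polynomial of the closure -/
  b : ℤ[X]

/-- The polynomials of a tangle. The Alexander polynomial of the closure is `b (-X)` up to a
unit. -/
noncomputable def Tangle.data : ∀ {s : Bool}, Tangle s → Data
  | _, .cross => ⟨1, 1, X, 1⟩
  | _, .stack S T =>
    ⟨S.data.N + T.data.N, S.data.L * T.data.L, S.data.R * T.data.R,
      S.data.R * T.data.b + S.data.b * T.data.L⟩
  | _, .beside P T =>
    ⟨P.data.N - 1 + T.data.N, P.data.b * T.data.L + P.data.L * T.data.b,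
      P.data.b * T.data.R + P.data.L * T.data.b, P.data.b * T.data.b⟩
  | _, .flip T => T.data
  | _, .opposite S T =>
    ⟨S.data.N + T.data.N - 1, S.data.R * T.data.b + S.data.b * T.data.L, 0,
      S.data.b * T.data.b⟩
  | _, .sum P Q =>
    ⟨P.data.N + Q.data.N - 1, P.data.L * Q.data.b + P.data.b * Q.data.L, 0,
      P.data.b * Q.data.b⟩
  | _, .turn P => ⟨P.data.N + 1, X * P.data.b, 0, P.data.L⟩

/-- the polynomial `a` of the closure with one more crossing -/
noncomputable def Tangle.a (T : Tangle true) : ℤ[X] := T.data.b + T.data.R

end Pool.Agent.Helper37.Arb
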