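import Pool.Agent.Helper37.Arb.Def

/-! The diagrams of tangles are connected and planar. Part 1: definitions, gluing. -/

namespace Pool.Agent.Helper37.Arb

open Pool.Agent.Helper36.SC AltDiagram

section corners
variable {V : Type} (D : AltDiagram V) (v : V)
/-- leaving on the overpass, left side -/
def oL : V × Corner := (v, if D.pos v then .front else .left)
/-- leaving on the overpass, right side -/
def oR : V × Corner := (v, if D.pos v then .right else .front)
/-- leaving on the underpass, left side -/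
def uL : V × Corner := (v, if D.pos v then .left else .front)
/-- leaving on the underpass, right side -/
def uR : V × Corner := (v, if D.pos v then .front else .right)
/-- arriving on the underpass, left side -/
def iL : V × Corner := (v, if D.pos v then .back else .left)
/-- arriving on the underpass, right side -/
def iR : V × Corner := (v, if D.pos v then .right else .back)
/-- arriving on the overpass, left side -/
def jL : V × Corner := (v, if D.pos v then .left else .back)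
/-- arriving on the overpass, right side -/
def jR : V × Corner := (v, if D.pos v then .back else .right)
end corners

/-- same side of an edge of the open tangle -/
inductive Opn (s : Bool) {V : Type} (D : AltDiagram V) (l r : V) :
    V × Corner → V × Corner → Prop
  | oL (v : V) : (s = true → v ≠ r) → Opn s D l r (oL D v) (iL D (D.overNext v))
  | oR (v : V) : (s = true → v ≠ r) → Opn s D l r (oR D v) (iR D (D.overNext v))
  | uL (v : V) : v ≠ l → (s = false → v ≠ r) →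
      Opn s D l r (uL D v) (jL D (D.underNext v))
  | uR (v : V) : v ≠ l → (s = false → v ≠ r) →
      Opn s D l r (uR D v) (jR D (D.underNext v))

/-- regions of the open tangle -/
structure Faces (s : Bool) {V : Type} (D : AltDiagram V) (l r : V) (F : Type) where
  ρ : V × Corner → F
  N : F
  S : F
  W : F
  E : F
  NS : N ≠ S
  NW : N ≠ W
  NE : N ≠ E
  SW : S ≠ W
  SE : S ≠ E
  WE : W ≠ E
  fin : Finite F
  card : Nat.card F = Nat.card V + 3
  surj : Function.Surjective ρ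
  sound : ∀ c c', Opn s D l r c c' → ρ c = ρ c'
  conn : (∀ c c', ρ c = ρ c' → Relation.EqvGen (Opn s D l r) c c') ∧
    ∀ v w : V, Relation.EqvGen (fun v w => ∃ c c', Opn s D l r (v, c) (w, c')) v w
  l1 : ρ (uL D l) = W
  l2 : ρ (jL D (D.underNext l)) = W
  l3 : ρ (uR D l) = N
  l4 : ρ (jR D (D.underNext l)) = S
  t1 : s = true → ρ (oL D r) = N
  t2 : s = true → ρ (iL D (D.overNext r)) = S
  t3 : s = true → ρ (oR D r) = E
  t4 : s = true → ρ (iR D (D.overNext r)) = E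
  f0 : s = false → l ≠ r
  f1 : s = false → ρ (uL D r) = E
  f2 : s = false → ρ (jL D (D.underNext r)) = E
  f3 : s = false → ρ (uR D r) = S
  f4 : s = false → ρ (jR D (D.underNext r)) = N

/-! ### gluing of the sets of regions -/

section glue

variable {F₁ F₂ : Type} (x₁ y₁ z₁ : F₁) (x₂ y₂ z₂ : F₂)

/-- `F₁` and `F₂` glued along three elements -/
abbrev Gl : Type := F₁ ⊕ {x : F₂ // x ≠ x₂ ∧ x ≠ y₂ ∧ x ≠ z₂}

open Classical in
/-- the second inclusion -/
noncomputable def inj₂ (x : F₂) : Gl (F₁ := F₁) x₂ y₂ z₂ :=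
  if h : x ≠ x₂ ∧ x ≠ y₂ ∧ x ≠ z₂ then .inr ⟨x, h⟩
  else if x = x₂ then .inl x₁ else if x = y₂ then .inl y₁ else .inl z₁

variable {x₁ y₁ z₁ x₂ y₂ z₂}

theorem inj₂_x : inj₂ x₁ y₁ z₁ x₂ y₂ z₂ x₂ = .inl x₁ := by simp [inj₂]

theorem inj₂_y (h : x₂ ≠ y₂) : inj₂ x₁ y₁ z₁ x₂ y₂ z₂ y₂ = .inl y₁ := by
  simp [inj₂, h.symm]

theorem inj₂_z (h : x₂ ≠ z₂) (h' : y₂ ≠ z₂) : inj₂ x₁ y₁ z₁ x₂ y₂ z₂ z₂ = .inl z₁ := by
  simp [inj₂, h.symm, h'.symm]

theorem inj₂_eq_inl {x : F₂} {a : F₁} (h : inj₂ x₁ y₁ z₁ x₂ y₂ z₂ x = .inl a) :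
    (a = x₁ ∧ x = x₂) ∨ (a = y₁ ∧ x = y₂) ∨ (a = z₁ ∧ x = z₂) := by
  unfold inj₂ at h
  split_ifs at h with h1 h2 h3
  · left; simp only [Sum.inl.injEq] at h; exact ⟨h.symm, h2⟩
  · right; left; simp only [Sum.inl.injEq] at h; exact ⟨h.symm, h3⟩
  · right; right; simp only [Sum.inl.injEq] at h
    refine ⟨h.symm, ?_⟩
    by_contra h4
    exact h1 ⟨h2, h3, h4⟩

theorem inj₂_injective (hxy : x₁ ≠ y₁) (hxz : x₁ ≠ z₁) (hyz : y₁ ≠ z₁) {x x' : F₂}
    (h : inj₂ x₁ y₁ z₁ x₂ y₂ z₂ x = inj₂ x₁ y₁ z₁ x₂ y₂ z₂ x') : x = x' := by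
  rcases e : inj₂ x₁ y₁ z₁ x₂ y₂ z₂ x with a | a
  · rw [e] at h
    rcases inj₂_eq_inl e with ⟨h1, h2⟩ | ⟨h1, h2⟩ | ⟨h1, h2⟩ <;>
    rcases inj₂_eq_inl h.symm with ⟨h3, h4⟩ | ⟨h3, h4⟩ | ⟨h3, h4⟩ <;>
    first
      | exact h2.trans h4.symm
      | exact absurd (h1.symm.trans h3) (by first | assumption | exact Ne.symm (by assumption))
  · have key : ∀ (w : F₂) (b : {x : F₂ // x ≠ x₂ ∧ x ≠ y₂ ∧ x ≠ z₂}),
        inj₂ x₁ y₁ z₁ x₂ y₂ z₂ w = .inr b → w = b.1 := by
      intro w b hb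
      unfold inj₂ at hb
      split_ifs at hb with h1
      simp only [Sum.inr.injEq] at hb
      exact congrArg Subtype.val hb
    rw [key x a e, key x' a (h ▸ e)]

theorem gl_surj (w : Gl (F₁ := F₁) x₂ y₂ z₂) :
    (∃ a, w = .inl a) ∨ ∃ x, w = inj₂ x₁ y₁ z₁ x₂ y₂ z₂ x := by
  rcases w with a | ⟨x, hx⟩
  · exact Or.inl ⟨a, rfl⟩
  · right; exact ⟨x, by simp [inj₂, hx]⟩

theorem gl_card [Finite F₁] [Finite F₂] (hxy : x₂ ≠ y₂) (hxz : x₂ ≠ z₂) (hyz : y₂ ≠ z₂) :
    Nat.card (Gl (F₁ := F₁) x₂ y₂ z₂) + 3 = Nat.card F₁ + Nat.card F₂ := by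
  classical
  have := Fintype.ofFinite F₁
  have := Fintype.ofFinite F₂
  rw [Nat.card_sum]
  simp only [Nat.card_eq_fintype_card]
  rw [Fintype.card_subtype]
  have : (Finset.univ.filter fun x : F₂ => x ≠ x₂ ∧ x ≠ y₂ ∧ x ≠ z₂) =
      Finset.univ \ {x₂, y₂, z₂} := by
    ext x; simp
  rw [this, Finset.card_sdiff_of_subset (Finset.subset_univ _)]
  have h3 : ({x₂, y₂, z₂} : Finset F₂).card = 3 := by
    rw [Finset.card_eq_three]; exact ⟨x₂, y₂, z₂, hxy, hxz, hyz, rfl⟩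
  have h4 : ({x₂, y₂, z₂} : Finset F₂).card ≤ (Finset.univ : Finset F₂).card :=
    Finset.card_le_card (Finset.subset_univ _)
  rw [h3] at *
  rw [Finset.card_univ] at *
  omega

end glue

/-- inclusion of corners -/
def e₁ {V W : Type} (c : V × Corner) : (V ⊕ W) × Corner := (.inl c.1, c.2)
/-- inclusion of corners -/
def e₂ {V W : Type} (c : W × Corner) : (V ⊕ W) × Corner := (.inr c.1, c.2)

end Pool.Agent.Helper37.Arb
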