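import Pool.Agent.Helper37.Arb.Faces

/-! The diagrams of tangles are connected and planar. Part 2: the four gluings. -/

namespace Pool.Agent.Helper37.Arb

open Pool.Agent.Helper36.SC AltDiagram

section glue

variable {V₁ V₂ F₁ F₂ : Type} (x₁ y₁ z₁ : F₁) (x₂ y₂ z₂ : F₂)

/-- glued labelling -/
noncomputable def gρ (ρ₁ : V₁ × Corner → F₁) (ρ₂ : V₂ × Corner → F₂) :
    (V₁ ⊕ V₂) × Corner → Gl (F₁ := F₁) x₂ y₂ z₂ := fun p =>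
  match p with
  | (.inl v, c) => .inl (ρ₁ (v, c))
  | (.inr v, c) => inj₂ x₁ y₁ z₁ x₂ y₂ z₂ (ρ₂ (v, c))

variable {x₁ y₁ z₁ x₂ y₂ z₂}
variable {ρ₁ : V₁ × Corner → F₁} {ρ₂ : V₂ × Corner → F₂}

theorem gρ_e₁ (c : V₁ × Corner) : gρ x₁ y₁ z₁ x₂ y₂ z₂ ρ₁ ρ₂ (e₁ c) = .inl (ρ₁ c) := rfl
theorem gρ_e₂ (c : V₂ × Corner) :
    gρ x₁ y₁ z₁ x₂ y₂ z₂ ρ₁ ρ₂ (e₂ c) = inj₂ x₁ y₁ z₁ x₂ y₂ z₂ (ρ₂ c) := rfl

theorem cases_e (c : (V₁ ⊕ V₂) × Corner) : (∃ a, c = e₁ a) ∨ ∃ b, c = e₂ b := by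
  rcases c with ⟨v | v, c⟩
  · exact Or.inl ⟨(v, c), rfl⟩
  · exact Or.inr ⟨(v, c), rfl⟩

theorem gρ_surj (h₁ : Function.Surjective ρ₁) (h₂ : Function.Surjective ρ₂) :
    Function.Surjective (gρ x₁ y₁ z₁ x₂ y₂ z₂ ρ₁ ρ₂) := by
  intro w
  rcases gl_surj (x₁ := x₁) (y₁ := y₁) (z₁ := z₁) w with ⟨a, rfl⟩ | ⟨x, rfl⟩
  · obtain ⟨c, rfl⟩ := h₁ a
    exact ⟨e₁ c, rfl⟩
  · obtain ⟨c, rfl⟩ := h₂ x
    exact ⟨e₂ c, rfl⟩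

theorem eqvGen_map {A B : Type} {r : A → A → Prop} {r' : B → B → Prop} (f : A → B)
    (h : ∀ a b, r a b → r' (f a) (f b)) {a b : A} (hab : Relation.EqvGen r a b) :
    Relation.EqvGen r' (f a) (f b) := by
  induction hab with
  | rel a b hab => exact .rel _ _ (h a b hab)
  | refl a => exact .refl _
  | symm a b _ ih => exact .symm _ _ ih
  | trans a b c _ _ ih₁ ih₂ => exact .trans _ _ _ ih₁ ih₂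

theorem gρ_conn {r₁ : V₁ × Corner → V₁ × Corner → Prop} {r₂ : V₂ × Corner → V₂ × Corner → Prop}
    {r : (V₁ ⊕ V₂) × Corner → (V₁ ⊕ V₂) × Corner → Prop}
    (hxy : x₁ ≠ y₁) (hxz : x₁ ≠ z₁) (hyz : y₁ ≠ z₁)
    (c₁' : (∀ c c', ρ₁ c = ρ₁ c' → Relation.EqvGen r₁ c c') ∧
      ∀ v w, Relation.EqvGen (fun v w => ∃ c c', r₁ (v, c) (w, c')) v w)
    (c₂' : (∀ c c', ρ₂ c = ρ₂ c' → Relation.EqvGen r₂ c c') ∧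
      ∀ v w, Relation.EqvGen (fun v w => ∃ c c', r₂ (v, c) (w, c')) v w)
    (h₁ : ∀ a b, r₁ a b → r (e₁ a) (e₁ b)) (h₂ : ∀ a b, r₂ a b → r (e₂ a) (e₂ b))
    (hx : ∃ a b, ρ₁ a = x₁ ∧ ρ₂ b = x₂ ∧ (r (e₁ a) (e₂ b) ∨ r (e₂ b) (e₁ a)))
    (hy : ∃ a b, ρ₁ a = y₁ ∧ ρ₂ b = y₂ ∧ (r (e₁ a) (e₂ b) ∨ r (e₂ b) (e₁ a)))
    (hz : ∃ a b, ρ₁ a = z₁ ∧ ρ₂ b = z₂ ∧ (r (e₁ a) (e₂ b) ∨ r (e₂ b) (e₁ a))) :
    (∀ c c', gρ x₁ y₁ z₁ x₂ y₂ z₂ ρ₁ ρ₂ c = gρ x₁ y₁ z₁ x₂ y₂ z₂ ρ₁ ρ₂ c' →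
      Relation.EqvGen r c c') ∧
    ∀ v w, Relation.EqvGen (fun v w => ∃ c c', r (v, c) (w, c')) v w := by
  obtain ⟨c₁, c₃⟩ := c₁'
  obtain ⟨c₂, c₄⟩ := c₂'
  have mixed : ∀ a b, (Sum.inl (ρ₁ a) : Gl (F₁ := F₁) x₂ y₂ z₂) =
      inj₂ x₁ y₁ z₁ x₂ y₂ z₂ (ρ₂ b) → Relation.EqvGen r (e₁ a) (e₂ b) := by
    intro a b h
    have go : ∀ (x : F₁) (x' : F₂), ρ₁ a = x → ρ₂ b = x' →
        (∃ a b, ρ₁ a = x ∧ ρ₂ b = x' ∧ (r (e₁ a) (e₂ b) ∨ r (e₂ b) (e₁ a))) →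
        Relation.EqvGen r (e₁ a) (e₂ b) := by
      rintro x x' ha hb ⟨p, q, hp, hq, hr⟩
      have s1 := eqvGen_map e₁ h₁ (c₁ a p (ha.trans hp.symm))
      have s3 := eqvGen_map e₂ h₂ (c₂ q b (hq.trans hb.symm))
      refine s1.trans _ _ _ (Relation.EqvGen.trans _ _ _ ?_ s3)
      rcases hr with hr | hr
      · exact .rel _ _ hr
      · exact .symm _ _ (.rel _ _ hr)
    rcases inj₂_eq_inl h.symm with ⟨h3, h4⟩ | ⟨h3, h4⟩ | ⟨h3, h4⟩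
    · exact go _ _ h3 h4 hx
    · exact go _ _ h3 h4 hy
    · exact go _ _ h3 h4 hz
  have mix2 : ∀ a b, Relation.EqvGen (fun v w => ∃ c c', r (v, c) (w, c')) (.inl a) (.inr b) := by
    intro a b
    obtain ⟨p, q, _, _, hr⟩ := hx
    have s1 := eqvGen_map (r' := fun v w => ∃ c c', r (v, c) (w, c')) Sum.inl
      (fun v w ⟨c, c', h⟩ => ⟨c, c', h₁ _ _ h⟩) (c₃ a p.1)
    have s3 := eqvGen_map (r' := fun v w => ∃ c c', r (v, c) (w, c')) Sum.inr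
      (fun v w ⟨c, c', h⟩ => ⟨c, c', h₂ _ _ h⟩) (c₄ q.1 b)
    refine s1.trans _ _ _ (Relation.EqvGen.trans _ _ _ ?_ s3)
    rcases hr with hr | hr
    · exact .rel _ _ ⟨_, _, hr⟩
    · exact .symm _ _ (.rel _ _ ⟨_, _, hr⟩)
  refine ⟨?_, ?_⟩
  swap
  · rintro (a | a) (b | b)
    · exact eqvGen_map (r' := fun v w => ∃ c c', r (v, c) (w, c')) Sum.inl
        (fun v w ⟨c, c', h⟩ => ⟨c, c', h₁ _ _ h⟩) (c₃ a b)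
    · exact mix2 a b
    · exact (mix2 b a).symm _ _
    · exact eqvGen_map (r' := fun v w => ∃ c c', r (v, c) (w, c')) Sum.inr
        (fun v w ⟨c, c', h⟩ => ⟨c, c', h₂ _ _ h⟩) (c₄ a b)
  intro c c' h
  rcases cases_e c with ⟨a, rfl⟩ | ⟨a, rfl⟩ <;> rcases cases_e c' with ⟨b, rfl⟩ | ⟨b, rfl⟩
  · rw [gρ_e₁, gρ_e₁, Sum.inl.injEq] at h
    exact eqvGen_map e₁ h₁ (c₁ a b h)
  · rw [gρ_e₁, gρ_e₂] at h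
    exact mixed a b h
  · rw [gρ_e₁, gρ_e₂] at h
    exact (mixed b a h.symm).symm _ _
  · rw [gρ_e₂, gρ_e₂] at h
    exact eqvGen_map e₂ h₂ (c₂ a b (inj₂_injective hxy hxz hyz h))

end glue

end Pool.Agent.Helper37.Arb
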