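import Pool.Agent.Helper37.Arb.Faces2

/-! The diagrams of tangles are connected and planar. Part 3: stack. -/

namespace Pool.Agent.Helper37.Arb

open Pool.Agent.Helper36.SC AltDiagram

section next
variable {V : Type} [DecidableEq V] (D : AltDiagram V) (v w a : V)

theorem swU_l : (swapUnder D v w).underNext v = D.underNext w := by simp [swapUnder]
theorem swU_r : (swapUnder D v w).underNext w = D.underNext v := by simp [swapUnder]
theorem swU_n {v w a : V} (h : a ≠ v) (h' : a ≠ w) :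
    (swapUnder D v w).underNext a = D.underNext a := by
  simp [swapUnder, Equiv.swap_apply_of_ne_of_ne h h']
theorem swO_l : (swapOver D v w).overNext v = D.overNext w := by simp [swapOver]
theorem swO_r : (swapOver D v w).overNext w = D.overNext v := by simp [swapOver]
theorem swO_n {v w a : V} (h : a ≠ v) (h' : a ≠ w) :
    (swapOver D v w).overNext a = D.overNext a := by
  simp [swapOver, Equiv.swap_apply_of_ne_of_ne h h']

end next

section co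
variable {V₁ V₂ : Type} {D : AltDiagram (V₁ ⊕ V₂)} {D₁ : AltDiagram V₁} {D₂ : AltDiagram V₂}

theorem co₁ (h : ∀ v, D.pos (.inl v) = D₁.pos v) (v : V₁) :
    oL D (.inl v) = e₁ (oL D₁ v) ∧ oR D (.inl v) = e₁ (oR D₁ v) ∧
    uL D (.inl v) = e₁ (uL D₁ v) ∧ uR D (.inl v) = e₁ (uR D₁ v) ∧
    iL D (.inl v) = e₁ (iL D₁ v) ∧ iR D (.inl v) = e₁ (iR D₁ v) ∧
    jL D (.inl v) = e₁ (jL D₁ v) ∧ jR D (.inl v) = e₁ (jR D₁ v) := by
  simp [oL, oR, uL, uR, iL, iR, jL, jR, e₁, h]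

theorem co₂ (h : ∀ v, D.pos (.inr v) = D₂.pos v) (v : V₂) :
    oL D (.inr v) = e₂ (oL D₂ v) ∧ oR D (.inr v) = e₂ (oR D₂ v) ∧
    uL D (.inr v) = e₂ (uL D₂ v) ∧ uR D (.inr v) = e₂ (uR D₂ v) ∧
    iL D (.inr v) = e₂ (iL D₂ v) ∧ iR D (.inr v) = e₂ (iR D₂ v) ∧
    jL D (.inr v) = e₂ (jL D₂ v) ∧ jR D (.inr v) = e₂ (jR D₂ v) := by
  simp [oL, oR, uL, uR, iL, iR, jL, jR, e₂, h]

end co

theorem faces_stack' {V₁ V₂ F₁ F₂ : Type} {D : AltDiagram (V₁ ⊕ V₂)} {D₁ : AltDiagram V₁}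
    {D₂ : AltDiagram V₂} {l₁ r₁ : V₁} {l₂ r₂ : V₂} (fv₁ : Finite V₁) (fv₂ : Finite V₂)
    (G₁ : Faces true D₁ l₁ r₁ F₁) (G₂ : Faces true D₂ l₂ r₂ F₂)
    (p₁ : ∀ v, D.pos (.inl v) = D₁.pos v) (p₂ : ∀ v, D.pos (.inr v) = D₂.pos v)
    (oc₁ : D.overNext (.inl r₁) = .inr (D₂.overNext r₂))
    (oc₂ : D.overNext (.inr r₂) = .inl (D₁.overNext r₁))
    (uc₁ : D.underNext (.inl l₁) = .inr (D₂.underNext l₂))
    (uc₂ : D.underNext (.inr l₂) = .inl (D₁.underNext l₁))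
    (on₁ : ∀ v, v ≠ r₁ → D.overNext (.inl v) = .inl (D₁.overNext v))
    (on₂ : ∀ v, v ≠ r₂ → D.overNext (.inr v) = .inr (D₂.overNext v))
    (un₁ : ∀ v, v ≠ l₁ → D.underNext (.inl v) = .inl (D₁.underNext v))
    (un₂ : ∀ v, v ≠ l₂ → D.underNext (.inr v) = .inr (D₂.underNext v)) :
    Nonempty (Faces true D (.inr l₂) (.inr r₂) (Gl (F₁ := F₁) G₂.S G₂.W G₂.E)) := by
  have fin₁ := G₁.fin
  have fin₂ := G₂.fin
  have t1 := G₁.t1 rfl
  have t2 := G₁.t2 rfl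
  have t3 := G₁.t3 rfl
  have t4 := G₁.t4 rfl
  have t1' := G₂.t1 rfl
  have t2' := G₂.t2 rfl
  have t3' := G₂.t3 rfl
  have t4' := G₂.t4 rfl
  have jx : inj₂ G₁.N G₁.W G₁.E G₂.S G₂.W G₂.E G₂.S = .inl G₁.N := inj₂_x
  have jy : inj₂ G₁.N G₁.W G₁.E G₂.S G₂.W G₂.E G₂.W = .inl G₁.W := inj₂_y G₂.SW
  have jz : inj₂ G₁.N G₁.W G₁.E G₂.S G₂.W G₂.E G₂.E = .inl G₁.E := inj₂_z G₂.SE G₂.WE
  have ji : ∀ a b, inj₂ G₁.N G₁.W G₁.E G₂.S G₂.W G₂.E a = inj₂ G₁.N G₁.W G₁.E G₂.S G₂.W G₂.E b →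
      a = b := fun a b h => inj₂_injective G₁.NW G₁.NE G₁.WE h
  refine ⟨{
    ρ := gρ G₁.N G₁.W G₁.E G₂.S G₂.W G₂.E G₁.ρ G₂.ρ
    N := inj₂ G₁.N G₁.W G₁.E G₂.S G₂.W G₂.E G₂.N
    S := .inl G₁.S
    W := .inl G₁.W
    E := .inl G₁.E
    NS := ?_
    NW := ?_
    NE := ?_
    SW := ?_
    SE := ?_
    WE := ?_
    fin := ?_
    card := ?_
    surj := gρ_surj G₁.surj G₂.surj
    sound := ?_
    conn := ?_
    l1 := ?_
    l2 := ?_
    l3 := ?_
    l4 := ?_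
    t1 := fun _ => ?_
    t2 := fun _ => ?_
    t3 := fun _ => ?_
    t4 := fun _ => ?_
    f0 := by simp
    f1 := by simp
    f2 := by simp
    f3 := by simp
    f4 := by simp }⟩
  · intro h
    rcases inj₂_eq_inl h with ⟨h1, h2⟩ | ⟨h1, h2⟩ | ⟨h1, h2⟩
    · exact G₁.NS h1.symm
    · exact G₂.NW h2
    · exact G₂.NE h2
  · rw [← jy]; exact fun h => G₂.NW (ji _ _ h)
  · rw [← jz]; exact fun h => G₂.NE (ji _ _ h)
  · simpa using G₁.SW
  · simpa using G₁.SE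
  · simpa using G₁.WE
  · infer_instance
  · have h1 := gl_card (F₁ := F₁) G₂.SW G₂.SE G₂.WE
    have h2 := G₁.card
    have h3 := G₂.card
    have h4 : Nat.card (V₁ ⊕ V₂) = Nat.card V₁ + Nat.card V₂ := Nat.card_sum
    omega
  · intro c c' h
    cases h with
    | oL v hv =>
      rcases v with v | v
      · by_cases e : v = r₁
        · subst e
          simp only [oc₁, co₁ p₁, co₂ p₂, gρ_e₁, gρ_e₂, t1, t2', jx]
        · simp only [on₁ v e, co₁ p₁, gρ_e₁, G₁.sound _ _ (.oL v fun _ => e)]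
      · have e : v ≠ r₂ := by simpa using hv
        simp only [on₂ v e, co₂ p₂, gρ_e₂, G₂.sound _ _ (.oL v fun _ => e)]
    | oR v hv =>
      rcases v with v | v
      · by_cases e : v = r₁
        · subst e
          simp only [oc₁, co₁ p₁, co₂ p₂, gρ_e₁, gρ_e₂, t3, t4', jz]
        · simp only [on₁ v e, co₁ p₁, gρ_e₁, G₁.sound _ _ (.oR v fun _ => e)]
      · have e : v ≠ r₂ := by simpa using hv
        simp only [on₂ v e, co₂ p₂, gρ_e₂, G₂.sound _ _ (.oR v fun _ => e)]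
    | uL v h1 h2 =>
      rcases v with v | v
      · by_cases e : v = l₁
        · subst e
          simp only [uc₁, co₁ p₁, co₂ p₂, gρ_e₁, gρ_e₂, G₁.l1, G₂.l2, jy]
        · simp only [un₁ v e, co₁ p₁, gρ_e₁, G₁.sound _ _ (.uL v e (by simp))]
      · have e : v ≠ l₂ := by simpa using h1
        simp only [un₂ v e, co₂ p₂, gρ_e₂, G₂.sound _ _ (.uL v e (by simp))]
    | uR v h1 h2 =>
      rcases v with v | v
      · by_cases e : v = l₁
        · subst e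
          simp only [uc₁, co₁ p₁, co₂ p₂, gρ_e₁, gρ_e₂, G₁.l3, G₂.l4, jx]
        · simp only [un₁ v e, co₁ p₁, gρ_e₁, G₁.sound _ _ (.uR v e (by simp))]
      · have e : v ≠ l₂ := by simpa using h1
        simp only [un₂ v e, co₂ p₂, gρ_e₂, G₂.sound _ _ (.uR v e (by simp))]
  · refine gρ_conn G₁.NW G₁.NE G₁.WE G₁.conn G₂.conn ?_ ?_ ?_ ?_ ?_
    · intro a b h
      cases h with
      | oL v hv =>
        have := Opn.oL (s := true) (D := D) (l := .inr l₂) (r := .inr r₂) (.inl v) (by simp)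
        rwa [on₁ v (hv rfl), (co₁ p₁ _).1, (co₁ p₁ _).2.2.2.2.1] at this
      | oR v hv =>
        have := Opn.oR (s := true) (D := D) (l := .inr l₂) (r := .inr r₂) (.inl v) (by simp)
        rwa [on₁ v (hv rfl), (co₁ p₁ _).2.1, (co₁ p₁ _).2.2.2.2.2.1] at this
      | uL v h1 h2 =>
        have := Opn.uL (s := true) (D := D) (l := .inr l₂) (r := .inr r₂) (.inl v) (by simp)
          (by simp)
        rwa [un₁ v h1, (co₁ p₁ _).2.2.1, (co₁ p₁ _).2.2.2.2.2.2.1] at this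
      | uR v h1 h2 =>
        have := Opn.uR (s := true) (D := D) (l := .inr l₂) (r := .inr r₂) (.inl v) (by simp)
          (by simp)
        rwa [un₁ v h1, (co₁ p₁ _).2.2.2.1, (co₁ p₁ _).2.2.2.2.2.2.2] at this
    · intro a b h
      cases h with
      | oL v hv =>
        have := Opn.oL (s := true) (D := D) (l := .inr l₂) (r := .inr r₂) (.inr v)
          (by simpa using hv)
        rwa [on₂ v (hv rfl), (co₂ p₂ _).1, (co₂ p₂ _).2.2.2.2.1] at this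
      | oR v hv =>
        have := Opn.oR (s := true) (D := D) (l := .inr l₂) (r := .inr r₂) (.inr v)
          (by simpa using hv)
        rwa [on₂ v (hv rfl), (co₂ p₂ _).2.1, (co₂ p₂ _).2.2.2.2.2.1] at this
      | uL v h1 h2 =>
        have := Opn.uL (s := true) (D := D) (l := .inr l₂) (r := .inr r₂) (.inr v)
          (by simpa using h1) (by simp)
        rwa [un₂ v h1, (co₂ p₂ _).2.2.1, (co₂ p₂ _).2.2.2.2.2.2.1] at this
      | uR v h1 h2 =>
        have := Opn.uR (s := true) (D := D) (l := .inr l₂) (r := .inr r₂) (.inr v)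
          (by simpa using h1) (by simp)
        rwa [un₂ v h1, (co₂ p₂ _).2.2.2.1, (co₂ p₂ _).2.2.2.2.2.2.2] at this
    · refine ⟨_, _, t1, t2', Or.inl ?_⟩
      have := Opn.oL (s := true) (D := D) (l := .inr l₂) (r := .inr r₂) (.inl r₁) (by simp)
      rwa [oc₁, (co₁ p₁ _).1, (co₂ p₂ _).2.2.2.2.1] at this
    · refine ⟨_, _, G₁.l1, G₂.l2, Or.inl ?_⟩
      have := Opn.uL (s := true) (D := D) (l := .inr l₂) (r := .inr r₂) (.inl l₁) (by simp)
        (by simp)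
      rwa [uc₁, (co₁ p₁ _).2.2.1, (co₂ p₂ _).2.2.2.2.2.2.1] at this
    · refine ⟨_, _, t3, t4', Or.inl ?_⟩
      have := Opn.oR (s := true) (D := D) (l := .inr l₂) (r := .inr r₂) (.inl r₁) (by simp)
      rwa [oc₁, (co₁ p₁ _).2.1, (co₂ p₂ _).2.2.2.2.2.1] at this
  · simp only [co₂ p₂, gρ_e₂, G₂.l1, jy]
  · simp only [uc₂, co₁ p₁, gρ_e₁, G₁.l2]
  · simp only [co₂ p₂, gρ_e₂, G₂.l3]
  · simp only [uc₂, co₁ p₁, gρ_e₁, G₁.l4]
  · simp only [co₂ p₂, gρ_e₂, t1']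
  · simp only [oc₂, co₁ p₁, gρ_e₁, t2]
  · simp only [co₂ p₂, gρ_e₂, t3', jz]
  · simp only [oc₂, co₁ p₁, gρ_e₁, t4]

end Pool.Agent.Helper37.Arb
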