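import Pool.Agent.Helper37.Arb.Faces3

/-! The diagrams of tangles are connected and planar. Part 4: beside, sum, opposite. -/

namespace Pool.Agent.Helper37.Arb

open Pool.Agent.Helper36.SC AltDiagram

theorem faces_besum' {s : Bool} {V₁ V₂ F₁ F₂ : Type} {D : AltDiagram (V₁ ⊕ V₂)}
    {D₁ : AltDiagram V₁}
    {D₂ : AltDiagram V₂} {l₁ r₁ : V₁} {l₂ r₂ : V₂} (fv₁ : Finite V₁) (fv₂ : Finite V₂)
    (G₁ : Faces false D₁ l₁ r₁ F₁) (G₂ : Faces s D₂ l₂ r₂ F₂)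
    (p₁ : ∀ v, D.pos (.inl v) = D₁.pos v) (p₂ : ∀ v, D.pos (.inr v) = D₂.pos v)
    (uc₁ : D.underNext (.inl r₁) = .inr (D₂.underNext l₂))
    (uc₂ : D.underNext (.inr l₂) = .inl (D₁.underNext r₁))
    (on₁ : ∀ v, D.overNext (.inl v) = .inl (D₁.overNext v))
    (on₂ : ∀ v, D.overNext (.inr v) = .inr (D₂.overNext v))
    (un₁ : ∀ v, v ≠ r₁ → D.underNext (.inl v) = .inl (D₁.underNext v))
    (un₂ : ∀ v, v ≠ l₂ → D.underNext (.inr v) = .inr (D₂.underNext v)) :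
    Nonempty (Faces s D (.inl l₁) (.inr r₂) (Gl (F₁ := F₁) G₂.N G₂.S G₂.W)) := by
  have fin₁ := G₁.fin
  have fin₂ := G₂.fin
  have f0 := G₁.f0 rfl
  have f1 := G₁.f1 rfl
  have f2 := G₁.f2 rfl
  have f3 := G₁.f3 rfl
  have f4 := G₁.f4 rfl
  have jx : inj₂ G₁.N G₁.S G₁.E G₂.N G₂.S G₂.W G₂.N = .inl G₁.N := inj₂_x
  have jy : inj₂ G₁.N G₁.S G₁.E G₂.N G₂.S G₂.W G₂.S = .inl G₁.S := inj₂_y G₂.NS
  have jz : inj₂ G₁.N G₁.S G₁.E G₂.N G₂.S G₂.W G₂.W = .inl G₁.E := inj₂_z G₂.NW G₂.SW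
  have ji : ∀ a b, inj₂ G₁.N G₁.S G₁.E G₂.N G₂.S G₂.W a = inj₂ G₁.N G₁.S G₁.E G₂.N G₂.S G₂.W b →
      a = b := fun a b h => inj₂_injective G₁.NS G₁.NE G₁.SE h
  refine ⟨{
    ρ := gρ G₁.N G₁.S G₁.E G₂.N G₂.S G₂.W G₁.ρ G₂.ρ
    N := .inl G₁.N
    S := .inl G₁.S
    W := .inl G₁.W
    E := inj₂ G₁.N G₁.S G₁.E G₂.N G₂.S G₂.W G₂.E
    NS := ?_
    NW := ?_
    NE := ?_
    SW := ?_
    SE := ?_
    WE := ?_
    fin := ?_
    card := ?_
    surj := gρ_surj G₁.surj G₂.surj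
    sound := ?_
    conn := ?_
    l1 := ?_
    l2 := ?_
    l3 := ?_
    l4 := ?_
    t1 := fun h => ?_
    t2 := fun h => ?_
    t3 := fun h => ?_
    t4 := fun h => ?_
    f0 := by simp
    f1 := fun h => ?_
    f2 := fun h => ?_
    f3 := fun h => ?_
    f4 := fun h => ?_ }⟩
  · simpa using G₁.NS
  · simpa using G₁.NW
  · rw [← jx]; exact fun h => G₂.NE (ji _ _ h)
  · simpa using G₁.SW
  · rw [← jy]; exact fun h => G₂.SE (ji _ _ h)
  · intro h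
    rcases inj₂_eq_inl h.symm with ⟨h1, h2⟩ | ⟨h1, h2⟩ | ⟨h1, h2⟩
    · exact G₁.NW h1.symm
    · exact G₁.SW h1.symm
    · exact G₁.WE h1
  · infer_instance
  · have h1 := gl_card (F₁ := F₁) G₂.NS G₂.NW G₂.SW
    have h2 := G₁.card
    have h3 := G₂.card
    have h4 : Nat.card (V₁ ⊕ V₂) = Nat.card V₁ + Nat.card V₂ := Nat.card_sum
    omega
  · intro c c' h
    cases h with
    | oL v hv =>
      rcases v with v | v
      · simp only [on₁ v, co₁ p₁, gρ_e₁, G₁.sound _ _ (.oL v (by simp))]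
      · simp only [on₂ v, co₂ p₂, gρ_e₂, G₂.sound _ _ (.oL v fun h => by simpa using hv h)]
    | oR v hv =>
      rcases v with v | v
      · simp only [on₁ v, co₁ p₁, gρ_e₁, G₁.sound _ _ (.oR v (by simp))]
      · simp only [on₂ v, co₂ p₂, gρ_e₂, G₂.sound _ _ (.oR v fun h => by simpa using hv h)]
    | uL v h1 h2 =>
      rcases v with v | v
      · by_cases e : v = r₁
        · subst e
          simp only [uc₁, co₁ p₁, co₂ p₂, gρ_e₁, gρ_e₂, f1, G₂.l2, jz]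
        · have e' : v ≠ l₁ := by simpa using h1
          simp only [un₁ v e, co₁ p₁, gρ_e₁, G₁.sound _ _ (.uL v e' fun _ => e)]
      · by_cases e : v = l₂
        · subst e
          simp only [uc₂, co₁ p₁, co₂ p₂, gρ_e₁, gρ_e₂, f2, G₂.l1, jz]
        · simp only [un₂ v e, co₂ p₂, gρ_e₂,
            G₂.sound _ _ (.uL v e fun h => by simpa using h2 h)]
    | uR v h1 h2 =>
      rcases v with v | v
      · by_cases e : v = r₁
        · subst e
          simp only [uc₁, co₁ p₁, co₂ p₂, gρ_e₁, gρ_e₂, f3, G₂.l4, jy]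
        · have e' : v ≠ l₁ := by simpa using h1
          simp only [un₁ v e, co₁ p₁, gρ_e₁, G₁.sound _ _ (.uR v e' fun _ => e)]
      · by_cases e : v = l₂
        · subst e
          simp only [uc₂, co₁ p₁, co₂ p₂, gρ_e₁, gρ_e₂, f4, G₂.l3, jx]
        · simp only [un₂ v e, co₂ p₂, gρ_e₂,
            G₂.sound _ _ (.uR v e fun h => by simpa using h2 h)]
  · refine gρ_conn G₁.NS G₁.NE G₁.SE G₁.conn G₂.conn ?_ ?_ ?_ ?_ ?_
    · intro a b h
      cases h with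
      | oL v hv =>
        have := Opn.oL (s := s) (D := D) (l := .inl l₁) (r := .inr r₂) (.inl v) (by simp)
        rwa [on₁ v, (co₁ p₁ _).1, (co₁ p₁ _).2.2.2.2.1] at this
      | oR v hv =>
        have := Opn.oR (s := s) (D := D) (l := .inl l₁) (r := .inr r₂) (.inl v) (by simp)
        rwa [on₁ v, (co₁ p₁ _).2.1, (co₁ p₁ _).2.2.2.2.2.1] at this
      | uL v h1 h2 =>
        have := Opn.uL (s := s) (D := D) (l := .inl l₁) (r := .inr r₂) (.inl v)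
          (by simpa using h1) (by simp)
        rwa [un₁ v (h2 rfl), (co₁ p₁ _).2.2.1, (co₁ p₁ _).2.2.2.2.2.2.1] at this
      | uR v h1 h2 =>
        have := Opn.uR (s := s) (D := D) (l := .inl l₁) (r := .inr r₂) (.inl v)
          (by simpa using h1) (by simp)
        rwa [un₁ v (h2 rfl), (co₁ p₁ _).2.2.2.1, (co₁ p₁ _).2.2.2.2.2.2.2] at this
    · intro a b h
      cases h with
      | oL v hv =>
        have := Opn.oL (s := s) (D := D) (l := .inl l₁) (r := .inr r₂) (.inr v)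
          (fun h => by simpa using hv h)
        rwa [on₂ v, (co₂ p₂ _).1, (co₂ p₂ _).2.2.2.2.1] at this
      | oR v hv =>
        have := Opn.oR (s := s) (D := D) (l := .inl l₁) (r := .inr r₂) (.inr v)
          (fun h => by simpa using hv h)
        rwa [on₂ v, (co₂ p₂ _).2.1, (co₂ p₂ _).2.2.2.2.2.1] at this
      | uL v h1 h2 =>
        have := Opn.uL (s := s) (D := D) (l := .inl l₁) (r := .inr r₂) (.inr v)
          (by simp) (fun h => by simpa using h2 h)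
        rwa [un₂ v h1, (co₂ p₂ _).2.2.1, (co₂ p₂ _).2.2.2.2.2.2.1] at this
      | uR v h1 h2 =>
        have := Opn.uR (s := s) (D := D) (l := .inl l₁) (r := .inr r₂) (.inr v)
          (by simp) (fun h => by simpa using h2 h)
        rwa [un₂ v h1, (co₂ p₂ _).2.2.2.1, (co₂ p₂ _).2.2.2.2.2.2.2] at this
    · refine ⟨_, _, f4, G₂.l3, Or.inr ?_⟩
      have := Opn.uR (s := s) (D := D) (l := .inl l₁) (r := .inr r₂) (.inr l₂) (by simp)
        (fun h => by simpa using G₂.f0 h)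
      rwa [uc₂, (co₂ p₂ _).2.2.2.1, (co₁ p₁ _).2.2.2.2.2.2.2] at this
    · refine ⟨_, _, f3, G₂.l4, Or.inl ?_⟩
      have := Opn.uR (s := s) (D := D) (l := .inl l₁) (r := .inr r₂) (.inl r₁)
        (by simpa using f0.symm) (by simp)
      rwa [uc₁, (co₁ p₁ _).2.2.2.1, (co₂ p₂ _).2.2.2.2.2.2.2] at this
    · refine ⟨_, _, f1, G₂.l2, Or.inl ?_⟩
      have := Opn.uL (s := s) (D := D) (l := .inl l₁) (r := .inr r₂) (.inl r₁)
        (by simpa using f0.symm) (by simp)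
      rwa [uc₁, (co₁ p₁ _).2.2.1, (co₂ p₂ _).2.2.2.2.2.2.1] at this
  · simp only [co₁ p₁, gρ_e₁, G₁.l1]
  · simp only [un₁ _ f0, co₁ p₁, gρ_e₁, G₁.l2]
  · simp only [co₁ p₁, gρ_e₁, G₁.l3]
  · simp only [un₁ _ f0, co₁ p₁, gρ_e₁, G₁.l4]
  · simp only [co₂ p₂, gρ_e₂, G₂.t1 h, jx]
  · simp only [on₂, co₂ p₂, gρ_e₂, G₂.t2 h, jy]
  · simp only [co₂ p₂, gρ_e₂, G₂.t3 h]
  · simp only [on₂, co₂ p₂, gρ_e₂, G₂.t4 h]
  · simp only [co₂ p₂, gρ_e₂, G₂.f1 h]
  · simp only [un₂ _ (G₂.f0 h).symm, co₂ p₂, gρ_e₂, G₂.f2 h]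
  · simp only [co₂ p₂, gρ_e₂, G₂.f3 h, jy]
  · simp only [un₂ _ (G₂.f0 h).symm, co₂ p₂, gρ_e₂, G₂.f4 h, jx]

theorem faces_opp' {V₁ V₂ F₁ F₂ : Type} {D : AltDiagram (V₁ ⊕ V₂)}
    {D₁ : AltDiagram V₁}
    {D₂ : AltDiagram V₂} {l₁ r₁ : V₁} {l₂ r₂ : V₂} (fv₁ : Finite V₁) (fv₂ : Finite V₂)
    (G₁ : Faces true D₁ l₁ r₁ F₁) (G₂ : Faces true D₂ l₂ r₂ F₂)
    (p₁ : ∀ v, D.pos (.inl v) = D₁.pos v) (p₂ : ∀ v, D.pos (.inr v) = D₂.pos v)
    (oc₁ : D.overNext (.inl r₁) = .inr (D₂.overNext r₂))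
    (oc₂ : D.overNext (.inr r₂) = .inl (D₁.overNext r₁))
    (un₁ : ∀ v, D.underNext (.inl v) = .inl (D₁.underNext v))
    (un₂ : ∀ v, D.underNext (.inr v) = .inr (D₂.underNext v))
    (on₁ : ∀ v, v ≠ r₁ → D.overNext (.inl v) = .inl (D₁.overNext v))
    (on₂ : ∀ v, v ≠ r₂ → D.overNext (.inr v) = .inr (D₂.overNext v)) :
    Nonempty (Faces false D (.inl l₁) (.inr l₂) (Gl (F₁ := F₁) G₂.S G₂.N G₂.E)) := by
  have fin₁ := G₁.fin
  have fin₂ := G₂.fin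
  have t1 := G₁.t1 rfl
  have t2 := G₁.t2 rfl
  have t3 := G₁.t3 rfl
  have t4 := G₁.t4 rfl
  have t1' := G₂.t1 rfl
  have t2' := G₂.t2 rfl
  have t3' := G₂.t3 rfl
  have t4' := G₂.t4 rfl
  have jx : inj₂ G₁.N G₁.S G₁.E G₂.S G₂.N G₂.E G₂.S = .inl G₁.N := inj₂_x
  have jy : inj₂ G₁.N G₁.S G₁.E G₂.S G₂.N G₂.E G₂.N = .inl G₁.S := inj₂_y G₂.NS.symm
  have jz : inj₂ G₁.N G₁.S G₁.E G₂.S G₂.N G₂.E G₂.E = .inl G₁.E := inj₂_z G₂.SE G₂.NE
  have ji : ∀ a b, inj₂ G₁.N G₁.S G₁.E G₂.S G₂.N G₂.E a = inj₂ G₁.N G₁.S G₁.E G₂.S G₂.N G₂.E b →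
      a = b := fun a b h => inj₂_injective G₁.NS G₁.NE G₁.SE h
  refine ⟨{
    ρ := gρ G₁.N G₁.S G₁.E G₂.S G₂.N G₂.E G₁.ρ G₂.ρ
    N := .inl G₁.N
    S := .inl G₁.S
    W := .inl G₁.W
    E := inj₂ G₁.N G₁.S G₁.E G₂.S G₂.N G₂.E G₂.W
    NS := ?_
    NW := ?_
    NE := ?_
    SW := ?_
    SE := ?_
    WE := ?_
    fin := ?_
    card := ?_
    surj := gρ_surj G₁.surj G₂.surj
    sound := ?_
    conn := ?_
    l1 := ?_
    l2 := ?_
    l3 := ?_
    l4 := ?_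
    t1 := by simp
    t2 := by simp
    t3 := by simp
    t4 := by simp
    f0 := by simp
    f1 := fun h => ?_
    f2 := fun h => ?_
    f3 := fun h => ?_
    f4 := fun h => ?_ }⟩
  · simpa using G₁.NS
  · simpa using G₁.NW
  · rw [← jx]; exact fun h => G₂.SW (ji _ _ h)
  · simpa using G₁.SW
  · rw [← jy]; exact fun h => G₂.NW (ji _ _ h)
  · intro h
    rcases inj₂_eq_inl h.symm with ⟨h1, h2⟩ | ⟨h1, h2⟩ | ⟨h1, h2⟩
    · exact G₁.NW h1.symm
    · exact G₁.SW h1.symm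
    · exact G₁.WE h1
  · infer_instance
  · have h1 := gl_card (F₁ := F₁) G₂.NS.symm G₂.SE G₂.NE
    have h2 := G₁.card
    have h3 := G₂.card
    have h4 : Nat.card (V₁ ⊕ V₂) = Nat.card V₁ + Nat.card V₂ := Nat.card_sum
    omega
  · intro c c' h
    cases h with
    | uL v h1 h2 =>
      rcases v with v | v
      · simp only [un₁ v, co₁ p₁, gρ_e₁,
          G₁.sound _ _ (.uL v (by simpa using h1) (by simp))]
      · simp only [un₂ v, co₂ p₂, gρ_e₂,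
          G₂.sound _ _ (.uL v (by simpa using h2 rfl) (by simp))]
    | uR v h1 h2 =>
      rcases v with v | v
      · simp only [un₁ v, co₁ p₁, gρ_e₁,
          G₁.sound _ _ (.uR v (by simpa using h1) (by simp))]
      · simp only [un₂ v, co₂ p₂, gρ_e₂,
          G₂.sound _ _ (.uR v (by simpa using h2 rfl) (by simp))]
    | oL v hv =>
      rcases v with v | v
      · by_cases e : v = r₁
        · subst e
          simp only [oc₁, co₁ p₁, co₂ p₂, gρ_e₁, gρ_e₂, t1, t2', jx]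
        · simp only [on₁ v e, co₁ p₁, gρ_e₁, G₁.sound _ _ (.oL v fun _ => e)]
      · by_cases e : v = r₂
        · subst e
          simp only [oc₂, co₁ p₁, co₂ p₂, gρ_e₁, gρ_e₂, t2, t1', jy]
        · simp only [on₂ v e, co₂ p₂, gρ_e₂, G₂.sound _ _ (.oL v fun _ => e)]
    | oR v hv =>
      rcases v with v | v
      · by_cases e : v = r₁
        · subst e
          simp only [oc₁, co₁ p₁, co₂ p₂, gρ_e₁, gρ_e₂, t3, t4', jz]
        · simp only [on₁ v e, co₁ p₁, gρ_e₁, G₁.sound _ _ (.oR v fun _ => e)]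
      · by_cases e : v = r₂
        · subst e
          simp only [oc₂, co₁ p₁, co₂ p₂, gρ_e₁, gρ_e₂, t4, t3', jz]
        · simp only [on₂ v e, co₂ p₂, gρ_e₂, G₂.sound _ _ (.oR v fun _ => e)]
  · refine gρ_conn G₁.NS G₁.NE G₁.SE G₁.conn G₂.conn ?_ ?_ ?_ ?_ ?_
    · intro a b h
      cases h with
      | uL v h1 h2 =>
        have := Opn.uL (s := false) (D := D) (l := .inl l₁) (r := .inr l₂) (.inl v)
          (by simpa using h1) (by simp)
        rwa [un₁ v, (co₁ p₁ _).2.2.1, (co₁ p₁ _).2.2.2.2.2.2.1] at this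
      | uR v h1 h2 =>
        have := Opn.uR (s := false) (D := D) (l := .inl l₁) (r := .inr l₂) (.inl v)
          (by simpa using h1) (by simp)
        rwa [un₁ v, (co₁ p₁ _).2.2.2.1, (co₁ p₁ _).2.2.2.2.2.2.2] at this
      | oL v hv =>
        have := Opn.oL (s := false) (D := D) (l := .inl l₁) (r := .inr l₂) (.inl v) (by simp)
        rwa [on₁ v (hv rfl), (co₁ p₁ _).1, (co₁ p₁ _).2.2.2.2.1] at this
      | oR v hv =>
        have := Opn.oR (s := false) (D := D) (l := .inl l₁) (r := .inr l₂) (.inl v) (by simp)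
        rwa [on₁ v (hv rfl), (co₁ p₁ _).2.1, (co₁ p₁ _).2.2.2.2.2.1] at this
    · intro a b h
      cases h with
      | uL v h1 h2 =>
        have := Opn.uL (s := false) (D := D) (l := .inl l₁) (r := .inr l₂) (.inr v)
          (by simp) (by simpa using h1)
        rwa [un₂ v, (co₂ p₂ _).2.2.1, (co₂ p₂ _).2.2.2.2.2.2.1] at this
      | uR v h1 h2 =>
        have := Opn.uR (s := false) (D := D) (l := .inl l₁) (r := .inr l₂) (.inr v)
          (by simp) (by simpa using h1)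
        rwa [un₂ v, (co₂ p₂ _).2.2.2.1, (co₂ p₂ _).2.2.2.2.2.2.2] at this
      | oL v hv =>
        have := Opn.oL (s := false) (D := D) (l := .inl l₁) (r := .inr l₂) (.inr v) (by simp)
        rwa [on₂ v (hv rfl), (co₂ p₂ _).1, (co₂ p₂ _).2.2.2.2.1] at this
      | oR v hv =>
        have := Opn.oR (s := false) (D := D) (l := .inl l₁) (r := .inr l₂) (.inr v) (by simp)
        rwa [on₂ v (hv rfl), (co₂ p₂ _).2.1, (co₂ p₂ _).2.2.2.2.2.1] at this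
    · refine ⟨_, _, t1, t2', Or.inl ?_⟩
      have := Opn.oL (s := false) (D := D) (l := .inl l₁) (r := .inr l₂) (.inl r₁) (by simp)
      rwa [oc₁, (co₁ p₁ _).1, (co₂ p₂ _).2.2.2.2.1] at this
    · refine ⟨_, _, t2, t1', Or.inr ?_⟩
      have := Opn.oL (s := false) (D := D) (l := .inl l₁) (r := .inr l₂) (.inr r₂) (by simp)
      rwa [oc₂, (co₂ p₂ _).1, (co₁ p₁ _).2.2.2.2.1] at this
    · refine ⟨_, _, t3, t4', Or.inl ?_⟩
      have := Opn.oR (s := false) (D := D) (l := .inl l₁) (r := .inr l₂) (.inl r₁) (by simp)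
      rwa [oc₁, (co₁ p₁ _).2.1, (co₂ p₂ _).2.2.2.2.2.1] at this
  · simp only [co₁ p₁, gρ_e₁, G₁.l1]
  · simp only [un₁, co₁ p₁, gρ_e₁, G₁.l2]
  · simp only [co₁ p₁, gρ_e₁, G₁.l3]
  · simp only [un₁, co₁ p₁, gρ_e₁, G₁.l4]
  · simp only [co₂ p₂, gρ_e₂, G₂.l1]
  · simp only [un₂, co₂ p₂, gρ_e₂, G₂.l2]
  · simp only [co₂ p₂, gρ_e₂, G₂.l3, jy]
  · simp only [un₂, co₂ p₂, gρ_e₂, G₂.l4, jx]

end Pool.Agent.Helper37.Arb
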