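import Pool.Agent.Helper37.Arb.Assemble

/-! Final theorem from the goals -/

namespace Pool.Agent.Helper37.Arb

open Pool.Agent.Helper36.SC Polynomial

theorem lci_of_good1 (hn : GoalNest1) {N k k' : ℤ} {a b : ℤ → ℝ} (h : Good1 N k k' a b) :
    LCI b :=
  ⟨k, N - 1 - k, h.b0, h.b1, fun s => by
    have := (hn N k k' a b h).1 s s le_rfl
    rw [sq]; exact this⟩

theorem lci_of_goodG {N k k' : ℤ} {a b : ℤ → ℝ} (h : GoodG N k k' a b) : LCI b :=
  ⟨k, N - 1 - k, h.b0, h.b1, h.lb⟩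

theorem lci_true (hm : GoalSeqMul) (hcb : GoalCB) (hn : GoalNest1)
    (hsm : ∀ T : Tangle true, T.Small → ∃ k, Good2 T.data.N k (seq T.data.L) (seq T.data.b))
    {T : Tangle true} (h : Shape T) : LCI (seq T.data.b) := by
  obtain ⟨T₀, h0, hT⟩ := h
  obtain ⟨k₀, g0⟩ := hsm T₀ h0
  have l0 : LCI (seq T₀.data.b) := lci_of_good1 hn g0.half
  rcases hT with ⟨_, _, _, eb⟩ | ⟨N, k, k', A, B, hG, _, _, _, eb⟩
  · rw [eb]; exact l0
  · rw [eb, hm.2.1]
    refine LCI.conv hcb (lci_of_goodG hG) l0 ⟨k, ?_⟩ ⟨k₀, ?_⟩ (hm.1 _) (hm.1 _)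
    · exact (hG.b1 k le_rfl hG.ne).ne'
    · exact (g0.half.b1 k₀ le_rfl g0.half.ne).ne'

/-- The main theorem from the goals of PROJECT ARB. -/
theorem finalGood_of (hm : GoalSeqMul) (hd2 : GoalData2) (hd1 : GoalData1) (hp : GoalPal)
    (hcb : GoalCB) (hn : GoalNest1)
    (hsm : ∀ T : Tangle true, T.Small → ∃ k, Good2 T.data.N k (seq T.data.L) (seq T.data.b))
    (hc : GoalClosPair) (hs : GoalGSum) (hco : GoalCoeff)
    (hresp : (∀ T : Tangle true, ∃ j, Resp2 T.diag j T.data.l T.data.r T.data.f) ∧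
      (∀ P : Tangle false, ∃ j, Resp1 P.diag j P.data.l P.data.f))
    (hclose : (∀ (T : Tangle true) (j : ℤ), Vals T.data.l T.data.r T.data.f →
        Resp2 T.diag j T.data.l T.data.r T.data.f →
        ∃ k : T.diag.V → ℤ, ∀ u : T.diag.V, ∀ x : ℝ, 0 < x →
          aeval (-x) (T.diag.D.alexander u) = x ^ (k u) * aeval x T.data.b) ∧
      (∀ (P : Tangle false) (j : ℤ), (∀ x, 0 < x → 0 < P.data.l x ∧ 0 < P.data.f x) →
        Resp1 P.diag j P.data.l P.data.f →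
        ∃ k : P.diag.V → ℤ, ∀ u : P.diag.V, ∀ x : ℝ, 0 < x →
          aeval (-x) (P.diag.D.alexander u) = x ^ (k u) * aeval x P.data.b)) :
    FinalGood := by
  intro s t ht u
  have key := goodTerms hm hd2 hp hsm hc hs t ht
  cases s with
  | true =>
    obtain ⟨j, hj⟩ := hresp.1 t
    have hv : Vals t.data.l t.data.r t.data.f := by
      intro x hx
      obtain ⟨h1, h2, h3, _, _, _⟩ := (hd2 t).2 x hx
      refine ⟨h1, h2, h3, ?_⟩
      have h := congrArg (fun p : ℤ[X] => (aeval x p : ℝ)) (hd2 t).1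
      simpa [Data.l, Data.r, Data.f] using h
    obtain ⟨k, hk⟩ := hclose.1 t j hv hj
    exact final_of_lci hco (hk u) (((hd2 t).2 1 one_pos).2.2.1) (lci_true hm hcb hn hsm key)
  | false =>
    obtain ⟨j, hj⟩ := hresp.2 t
    obtain ⟨k, hk⟩ := hclose.2 t j (fun x hx => ⟨(hd1 t x hx).1, (hd1 t x hx).2.1⟩) hj
    obtain ⟨l, l', hG⟩ := key
    exact final_of_lci hco (hk u) ((hd1 t 1 one_pos).2.1) (lci_of_goodG hG)

/-- The theorem for small tangles from the goals of PROJECT ARB. -/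
theorem final_of (hd2 : GoalData2) (hd1 : GoalData1)
    (hn : GoalNest1)
    (hsm : (∀ T : Tangle true, T.Small → ∃ k, Good2 T.data.N k (seq T.data.L) (seq T.data.b)) ∧
      (∀ P : Tangle false, P.Small → ∃ k k', Good1 P.data.N k k' (seq P.data.L)
        (seq P.data.b))) (hco : GoalCoeff)
    (hresp : (∀ T : Tangle true, ∃ j, Resp2 T.diag j T.data.l T.data.r T.data.f) ∧
      (∀ P : Tangle false, ∃ j, Resp1 P.diag j P.data.l P.data.f))
    (hclose : (∀ (T : Tangle true) (j : ℤ), Vals T.data.l T.data.r T.data.f →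
        Resp2 T.diag j T.data.l T.data.r T.data.f →
        ∃ k : T.diag.V → ℤ, ∀ u : T.diag.V, ∀ x : ℝ, 0 < x →
          aeval (-x) (T.diag.D.alexander u) = x ^ (k u) * aeval x T.data.b) ∧
      (∀ (P : Tangle false) (j : ℤ), (∀ x, 0 < x → 0 < P.data.l x ∧ 0 < P.data.f x) →
        Resp1 P.diag j P.data.l P.data.f →
        ∃ k : P.diag.V → ℤ, ∀ u : P.diag.V, ∀ x : ℝ, 0 < x →
          aeval (-x) (P.diag.D.alexander u) = x ^ (k u) * aeval x P.data.b)) :
    ∀ {s : Bool} (t : Tangle s), t.Small → ∀ u : t.diag.V,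
  (∀ k, 0 ≤ (-1) ^ k * (t.diag.D.alexander u).coeff k) ∧
  (∀ k, (t.diag.D.alexander u).coeff k * (t.diag.D.alexander u).coeff (k + 2) ≤
    (t.diag.D.alexander u).coeff (k + 1) ^ 2) ∧
  (∀ i j k, i < j → j < k → (t.diag.D.alexander u).coeff i ≠ 0 →
    (t.diag.D.alexander u).coeff k ≠ 0 → (t.diag.D.alexander u).coeff j ≠ 0) ∧
  t.diag.D.alexander u ≠ 0 := by
  intro s t ht u
  cases s with
  | true =>
    obtain ⟨j, hj⟩ := hresp.1 t
    have hv : Vals t.data.l t.data.r t.data.f := by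
      intro x hx
      obtain ⟨h1, h2, h3, _, _, _⟩ := (hd2 t).2 x hx
      refine ⟨h1, h2, h3, ?_⟩
      have h := congrArg (fun p : ℤ[X] => (aeval x p : ℝ)) (hd2 t).1
      simpa [Data.l, Data.r, Data.f] using h
    obtain ⟨k, hk⟩ := hclose.1 t j hv hj
    obtain ⟨l, hG⟩ := hsm.1 t ht
    exact final_of_lci hco (hk u) (((hd2 t).2 1 one_pos).2.2.1) (lci_of_good1 hn hG.half)
  | false =>
    obtain ⟨j, hj⟩ := hresp.2 t
    obtain ⟨k, hk⟩ := hclose.2 t j (fun x hx => ⟨(hd1 t x hx).1, (hd1 t x hx).2.1⟩) hj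
    obtain ⟨l, l', hG⟩ := hsm.2 t ht
    exact final_of_lci hco (hk u) ((hd1 t 1 one_pos).2.1) (lci_of_good1 hn hG)

end Pool.Agent.Helper37.Arb
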