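import Pool.Agent.Helper32.Arb.Gsum

/-! GBESIDE -/

namespace Pool.Agent.Helper37.Arb

open Pool.Agent.Helper32.Arb

theorem conv_rev {f g : ℤ → ℝ} {A C : ℤ} (hf : ∀ s, f (A - s) = f s) (v : ℤ) :
    conv f g (A + C - v) = conv f (fun s => g (C - s)) v := by
  unfold conv
  rw [← finsum_comp_equiv (Equiv.subLeft A)]
  refine finsum_congr fun i ↦ ?_
  show f (A - i) * g (A + C - v - (A - i)) = f i * g (C - (v - i))
  rw [hf]
  congr 2
  ring

theorem goodBeside : GoalGoodBeside := by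
  intro hCB hN1 N₁ k₁ k₁' N₂ k₂ A B L b h₁ h₂
  have h3 := goodSum hCB hN1 _ _ _ _ _ _ _ _ _ _ h₁ h₂.half
  obtain ⟨k', hk'⟩ := h3
  have hB : ∀ (g : ℤ → ℝ) v, conv B g v = ∑ i ∈ Finset.Icc k₁ (N₁ - 1 - k₁), B i * g (v - i) :=
    fun g v => conv_eq_sum g h₁.b0 v
  have eN : N₁ - 1 + N₂ = N₁ + N₂ - 1 := by ring
  have sA : ∀ s, conv A b (N₁ - 1 + N₂ - s) = conv A b s := by
    intro s
    rw [← conv_symm h₁.pa h₂.half.pb s]
    congr 1; ring
  have sB : ∀ s, conv B L (N₁ - 1 + N₂ - s) = conv B (fun s => L (N₂ - s)) s := fun s =>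
    conv_rev h₁.pb s
  have fe : (fun s => conv B b s + (conv B L + conv A b) (N₁ - 1 + N₂ - s)) =
      conv A b + conv B (fun s => b s + L (N₂ - s)) := by
    funext s
    rw [Pi.add_apply, Pi.add_apply, sA, sB, hB b, hB (fun s => L (N₂ - s)),
      hB (fun s => b s + L (N₂ - s))]
    simp only [mul_add, Finset.sum_add_distrib]
    ring
  have ne₁ := h₁.ne
  have ne₂ := h₂.half.ne
  have ne₂' := h₂.half.ne'
  have pos : 0 < (conv A b + conv B (fun s => b s + L (N₂ - s))) (k₁ + k₂) := by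
    rw [Pi.add_apply]
    refine add_pos_of_nonneg_of_pos (conv_nonneg (a_nonneg h₁) (b_nonneg h₂.half) _) ?_
    exact conv_pos h₁.b0 h₁.b1 (a_nonneg h₂.half) h₂.half.a1 ne₁ ne₂' _ (by omega) (by omega)
  have kk : k' = k₁ + k₂ := by
    rcases hk'.hk with h | h
    · exact h
    · exfalso
      have := hk'.a0 (k₁ + k₂) (by omega)
      rw [this] at pos
      exact lt_irrefl _ pos
  rw [kk] at hk'
  have L0 : ∀ s, 0 ≤ L s := h₂.L0
  refine ⟨?_, ?_, ?_⟩
  · intro s
    exact add_nonneg (conv_nonneg (b_nonneg h₁) L0 s)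
      (conv_nonneg (a_nonneg h₁) (b_nonneg h₂.half) s)
  · intro s
    rw [Pi.add_apply, Pi.add_apply, sA, sB, hB b s, hB b (s - 1), hB L,
      hB (fun s => L (N₂ - s))]
    have : ∀ i, B i * b (s - i) - B i * b (s - 1 - i) =
        B i * L (s - i) - B i * L (N₂ - (s - i)) := by
      intro i
      have := h₂.rel (s - i)
      rw [show s - 1 - i = s - i - 1 by ring, ← mul_sub, this]; ring
    have e := Finset.sum_congr (s₁ := Finset.Icc k₁ (N₁ - 1 - k₁)) rfl fun i _ => this i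
    simp only [Finset.sum_sub_distrib] at e
    linarith
  · rw [fe, eN]
    exact hk'

end Pool.Agent.Helper37.Arb
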