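import Pool.Agent.Helper37.Arb.Goals

/-!
Good tangles: only the two factors of a `stack` have to be small.
-/

namespace Pool.Agent.Helper37.Arb

open Pool.Agent.Helper36.SC Polynomial

/-- The tangles for which log-concavity is proved: the two factors of every (outermost) `stack`
are small. -/
def Tangle.Good : ∀ {s : Bool}, Tangle s → Prop
  | _, .cross => True
  | _, .stack S T => S.Small ∧ T.Small
  | _, .beside P T => P.Good ∧ T.Good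
  | _, .flip T => T.Good
  | _, .opposite S T => S.Good ∧ T.Good
  | _, .sum P Q => P.Good ∧ Q.Good
  | _, .turn P => P.Good

/-- Schur coefficients of the symmetric parts of `b(x) a(z) = al + z be`. -/
def al (a b : ℤ → ℝ) (u v : ℤ) : ℝ := b u * a v - a (u + 1) * b (v - 1)

/-- see `al` -/
def be (a b : ℤ → ℝ) (u v : ℤ) : ℝ := a (u + 1) * b v - a v * b (u + 1)

/-- Pairs `(a, b)` of polynomials of good antiparallel tangles. -/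
structure GoodG (N k k' : ℤ) (a b : ℤ → ℝ) : Prop where
  hk : k' = k ∨ k' = k + 1
  ne : k ≤ N - 1 - k
  ne' : k' ≤ N - k'
  a0 : ∀ s, s < k' ∨ N - k' < s → a s = 0
  a1 : ∀ s, k' ≤ s → s ≤ N - k' → 0 < a s
  b0 : ∀ s, s < k ∨ N - 1 - k < s → b s = 0
  b1 : ∀ s, k ≤ s → s ≤ N - 1 - k → 0 < b s
  pa : ∀ s, a (N - s) = a s
  pb : ∀ s, b (N - 1 - s) = b s
  la : ∀ s, a (s + 1) * a (s - 1) ≤ a s ^ 2
  lb : ∀ s, b (s + 1) * b (s - 1) ≤ b s ^ 2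
  sh1 : ∀ u v : ℤ, v ≤ u →
    0 ≤ ((u - v : ℤ) : ℝ) * al a b u v + ((u - v + 1 : ℤ) : ℝ) * be a b (u - 1) v
  sh2 : ∀ u v : ℤ, v ≤ u →
    0 ≤ ((u - v + 2 : ℤ) : ℝ) * al a b u v + ((u - v + 1 : ℤ) : ℝ) * be a b u (v - 1)

/-- CLOSPAIR (helper52) -/
def GoalClosPair : Prop := ∀ N₁ k₁ N₂ k₂ : ℤ, ∀ L₁ b₁ L₂ b₂ : ℤ → ℝ,
  Good2 N₁ k₁ L₁ b₁ → Good2 N₂ k₂ L₂ b₂ →
  ∃ k', GoodG (N₁ + N₂ - 1) (k₁ + k₂) k' (conv (fun s => L₁ (N₁ - s)) b₂ + conv b₁ L₂)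
    (conv b₁ b₂)

/-- GSUM (helper52) -/
def GoalGSum : Prop := ∀ N₁ k₁ k₁' N₂ k₂ k₂' : ℤ, ∀ a₁ b₁ a₂ b₂ : ℤ → ℝ,
  GoodG N₁ k₁ k₁' a₁ b₁ → GoodG N₂ k₂ k₂' a₂ b₂ →
  ∃ k', GoodG (N₁ + N₂ - 1) (k₁ + k₂) k' (conv a₁ b₂ + conv b₁ a₂) (conv b₁ b₂)

/-- GTURN -/
def GoalGTurn : Prop := ∀ N k k' : ℤ, ∀ a b : ℤ → ℝ, GoodG N k k' a b →
  GoodG (N + 1) k' (k + 1) (fun s => b (s - 1)) a

/-- GOODTERMS (assembly). A good parallel tangle has `L = B L₀ + A b₀`, `R = B R₀ + A b₀`,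
`b = B b₀` with `(L₀, b₀)` of a small tangle and `(A, B)` of type `GoodG` or `(0, 1)`. -/
def GoalGoodTerms : Prop := GoalSeqMul → GoalData2 → GoalPal →
  ((∀ T : Tangle true, T.Small → ∃ k, Good2 T.data.N k (seq T.data.L) (seq T.data.b)) ∧
    (∀ P : Tangle false, P.Small → ∃ k k', Good1 P.data.N k k' (seq P.data.L)
      (seq P.data.b))) →
  GoalNest1 → GoalClosPair → GoalGSum → GoalGTurn →
  (∀ P : Tangle false, P.Good → ∃ k k', GoodG P.data.N k k' (seq P.data.L) (seq P.data.b)) ∧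
  (∀ T : Tangle true, T.Good → ∃ k, k ≤ T.data.N - 1 - k ∧
    (∀ s, s < k ∨ T.data.N - 1 - k < s → seq T.data.b s = 0) ∧
    (∀ s, k ≤ s → s ≤ T.data.N - 1 - k → 0 < seq T.data.b s) ∧
    (∀ s, seq T.data.b (s + 1) * seq T.data.b (s - 1) ≤ seq T.data.b s ^ 2))

/-- The main theorem for good tangles. -/
def FinalGood : Prop := ∀ {s : Bool} (t : Tangle s), t.Good → ∀ u : t.diag.V,
  (∀ k, 0 ≤ (-1) ^ k * (t.diag.D.alexander u).coeff k) ∧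
  (∀ k, (t.diag.D.alexander u).coeff k * (t.diag.D.alexander u).coeff (k + 2) ≤
    (t.diag.D.alexander u).coeff (k + 1) ^ 2) ∧
  (∀ i j k, i < j → j < k → (t.diag.D.alexander u).coeff i ≠ 0 →
    (t.diag.D.alexander u).coeff k ≠ 0 → (t.diag.D.alexander u).coeff j ≠ 0) ∧
  t.diag.D.alexander u ≠ 0

end Pool.Agent.Helper37.Arb
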