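import Pool.Agent.Helper37.Arb.Gturn

/-! GOODTERMS -/

namespace Pool.Agent.Helper37.Arb

open Pool.Agent.Helper36.SC Polynomial

/-- shape of the data of a good parallel tangle -/
def Shape (T : Tangle true) : Prop :=
  ∃ T₀ : Tangle true, T₀.Small ∧
    ((T.data.N = T₀.data.N ∧ T.data.L = T₀.data.L ∧ T.data.R = T₀.data.R ∧
        T.data.b = T₀.data.b) ∨
      ∃ (N k k' : ℤ) (A B : ℤ[X]), GoodG N k k' (seq A) (seq B) ∧
        T.data.N = N - 1 + T₀.data.N ∧ T.data.L = B * T₀.data.L + A * T₀.data.b ∧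
        T.data.R = B * T₀.data.R + A * T₀.data.b ∧ T.data.b = B * T₀.data.b)

/-- GoodG for polynomials -/
def PG (N : ℤ) (A B : ℤ[X]) : Prop := ∃ k k' : ℤ, GoodG N k k' (seq A) (seq B)

theorem pg_sum (hm : GoalSeqMul) (hs : GoalGSum) {N₁ N₂ : ℤ} {A₁ B₁ A₂ B₂ : ℤ[X]}
    (h1 : PG N₁ A₁ B₁) (h2 : PG N₂ A₂ B₂) :
    PG (N₁ + N₂ - 1) (A₁ * B₂ + B₁ * A₂) (B₁ * B₂) := by
  obtain ⟨k₁, k₁', h1⟩ := h1
  obtain ⟨k₂, k₂', h2⟩ := h2
  obtain ⟨k', h⟩ := hs _ _ _ _ _ _ _ _ _ _ h1 h2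
  refine ⟨k₁ + k₂, k', ?_⟩
  obtain ⟨_, hmul, hadd, _, _⟩ := hm
  rw [hadd, hmul, hmul, hmul]
  exact h

theorem pg_turn (hm : GoalSeqMul) {N : ℤ} {A B : ℤ[X]}
    (h : PG N A B) : PG (N + 1) (X * B) A := by
  obtain ⟨k, k', h⟩ := h
  refine ⟨k', k + 1, ?_⟩
  obtain ⟨_, hmul, hadd, hX, _⟩ := hm
  have e : seq (X * B) = fun s => seq B (s - 1) := by
    funext s; exact hX B s
  rw [e]
  exact gturn _ _ _ _ _ h

theorem pg_clos (hm : GoalSeqMul) (hd : GoalData2) (hp : GoalPal)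
    (hsm : ∀ T : Tangle true, T.Small → ∃ k, Good2 T.data.N k (seq T.data.L) (seq T.data.b))
    (hc : GoalClosPair) {S T : Tangle true} (hS : S.Small) (hT : T.Small) :
    PG (S.data.N + T.data.N - 1) (S.data.R * T.data.b + S.data.b * T.data.L)
      (S.data.b * T.data.b) := by
  obtain ⟨k₁, h1⟩ := hsm S hS
  obtain ⟨k₂, h2⟩ := hsm T hT
  obtain ⟨k', h⟩ := hc _ _ _ _ _ _ _ _ h1 h2
  refine ⟨k₁ + k₂, k', ?_⟩
  have hpS := ((hp hm hd).1 S).1
  obtain ⟨_, hmul, hadd, _, _⟩ := hm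
  rw [hadd, hmul, hmul, hmul]
  have e : seq S.data.R = fun s => seq S.data.L (S.data.N - s) := by
    funext s; exact hpS s
  rw [e]
  exact h

theorem goodTerms (hm : GoalSeqMul) (hd : GoalData2) (hp : GoalPal)
    (hsm : ∀ T : Tangle true, T.Small → ∃ k, Good2 T.data.N k (seq T.data.L) (seq T.data.b))
    (hc : GoalClosPair) (hs : GoalGSum) :
    ∀ {s : Bool} (t : Tangle s), t.Good →
      (match s, t with
        | false, P => PG P.data.N P.data.L P.data.b
        | true, T => Shape T) := by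
  intro s t
  induction t with
  | cross =>
    intro _
    exact ⟨.cross, trivial, Or.inl ⟨rfl, rfl, rfl, rfl⟩⟩
  | stack S T _ _ =>
    intro h
    exact ⟨.stack S T, h, Or.inl ⟨rfl, rfl, rfl, rfl⟩⟩
  | beside P T ihP ihT =>
    intro h
    have hP := ihP h.1
    obtain ⟨T₀, h0, hT⟩ := ihT h.2
    refine ⟨T₀, h0, Or.inr ?_⟩
    rcases hT with ⟨eN, eL, eR, eb⟩ | ⟨N, k, k', A, B, hG, eN, eL, eR, eb⟩
    · obtain ⟨k, k', hP⟩ := hP
      refine ⟨_, k, k', _, _, hP, ?_, ?_, ?_, ?_⟩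
      · show P.data.N - 1 + T.data.N = _
        rw [eN]
      · show P.data.b * T.data.L + P.data.L * T.data.b = _
        rw [eL, eb]
      · show P.data.b * T.data.R + P.data.L * T.data.b = _
        rw [eR, eb]
      · show P.data.b * T.data.b = _
        rw [eb]
    · obtain ⟨k₁, k₁', hG'⟩ := pg_sum hm hs hP ⟨k, k', hG⟩
      refine ⟨_, k₁, k₁', _, _, hG', ?_, ?_, ?_, ?_⟩
      · show P.data.N - 1 + T.data.N = _
        rw [eN]; ring
      · show P.data.b * T.data.L + P.data.L * T.data.b = _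
        rw [eL, eb]; ring
      · show P.data.b * T.data.R + P.data.L * T.data.b = _
        rw [eR, eb]; ring
      · show P.data.b * T.data.b = _
        rw [eb]; ring
  | flip T ih =>
    intro h
    exact ih h
  | opposite S T ihS ihT =>
    intro h
    obtain ⟨S₀, h0, hS⟩ := ihS h.1
    obtain ⟨T₀, h0', hT⟩ := ihT h.2
    have hc0 := pg_clos hm hd hp hsm hc h0 h0'
    show PG (S.data.N + T.data.N - 1) (S.data.R * T.data.b + S.data.b * T.data.L)
      (S.data.b * T.data.b)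
    rcases hS with ⟨eN, eL, eR, eb⟩ | ⟨N, k, k', A, B, hG, eN, eL, eR, eb⟩
    · rcases hT with ⟨fN, fL, fR, fb⟩ | ⟨N', l, l', A', B', hG', fN, fL, fR, fb⟩
      · rw [eN, eR, eb, fN, fL, fb]; exact hc0
      · have := pg_sum hm hs ⟨l, l', hG'⟩ hc0
        rw [eN, eR, eb, fN, fL, fb]
        convert this using 1
        · ring
        · ring
        · ring
    · rcases hT with ⟨fN, fL, fR, fb⟩ | ⟨N', l, l', A', B', hG', fN, fL, fR, fb⟩
      · have := pg_sum hm hs ⟨k, k', hG⟩ hc0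
        rw [eN, eR, eb, fN, fL, fb]
        convert this using 1
        · ring
        · ring
        · ring
      · have := pg_sum hm hs (pg_sum hm hs ⟨k, k', hG⟩ ⟨l, l', hG'⟩) hc0
        rw [eN, eR, eb, fN, fL, fb]
        convert this using 1
        · ring
        · ring
        · ring
  | sum P Q ihP ihQ =>
    intro h
    exact pg_sum hm hs (ihP h.1) (ihQ h.2)
  | turn P ih =>
    intro h
    exact pg_turn hm (ih h)

end Pool.Agent.Helper37.Arb
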