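import Pool.Agent.Helper37.Arb.GoodDef

/-! GTURN and GOODTERMS -/

namespace Pool.Agent.Helper37.Arb

open Pool.Agent.Helper36.SC Polynomial

theorem gturn : GoalGTurn := by
  intro N k k' a b h
  refine ⟨?_, ?_, ?_, ?_, ?_, ?_, ?_, ?_, ?_, ?_, ?_, ?_, ?_⟩
  · rcases h.hk with h1 | h1
    · right; omega
    · left; omega
  · have := h.ne'; omega
  · have := h.ne; omega
  · intro s hs
    exact h.b0 (s - 1) (by omega)
  · intro s h1 h2
    exact h.b1 (s - 1) (by omega) (by omega)
  · intro s hs
    exact h.a0 s (by omega)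
  · intro s h1 h2
    exact h.a1 s (by omega) (by omega)
  · intro s
    have := h.pb (s - 1)
    show b (N + 1 - s - 1) = b (s - 1)
    rw [← this]; congr 1; ring
  · intro s
    have := h.pa s
    rw [← this]; congr 1; ring
  · intro s
    have := h.lb (s - 1)
    show b (s + 1 - 1) * b (s - 1 - 1) ≤ b (s - 1) ^ 2
    rw [show s + 1 - 1 = s - 1 + 1 by ring]; exact this
  · exact h.la
  · intro u v huv
    have e1 : al (fun s => b (s - 1)) a u v = be a b (u - 1) (v - 1) := by
      simp only [al, be]
      rw [show u + 1 - 1 = u by ring, show u - 1 + 1 = u by ring]; ring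
    have e2 : be (fun s => b (s - 1)) a (u - 1) v = al a b (u - 1) v := by
      simp only [al, be]
      rw [show u - 1 + 1 - 1 = u - 1 by ring]; ring
    rw [e1, e2]
    rcases eq_or_lt_of_le huv with h1 | h1
    · subst h1
      simp [al]
      ring_nf
      simp
    · have := h.sh2 (u - 1) v (by omega)
      push_cast at this ⊢
      have e3 : ((u : ℝ) - 1 - v + 2) * al a b (u - 1) v + ((u : ℝ) - 1 - v + 1) * be a b (u - 1) (v - 1) =
        ((u : ℝ) - v) * be a b (u - 1) (v - 1) + ((u : ℝ) - v + 1) * al a b (u - 1) v := by ring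
      rw [← e3]; exact this
  · intro u v huv
    have e1 : al (fun s => b (s - 1)) a u v = be a b (u - 1) (v - 1) := by
      simp only [al, be]
      rw [show u + 1 - 1 = u by ring, show u - 1 + 1 = u by ring]; ring
    have e2 : be (fun s => b (s - 1)) a u (v - 1) = al a b u (v - 1) := by
      simp only [al, be]
      rw [show u + 1 - 1 = u by ring]; ring
    rw [e1, e2]
    have := h.sh1 u (v - 1) (by omega)
    push_cast at this ⊢
    have e3 : ((u : ℝ) - (v - 1)) * al a b u (v - 1) + ((u : ℝ) - (v - 1) + 1) * be a b (u - 1) (v - 1) =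
        ((u : ℝ) - v + 2) * be a b (u - 1) (v - 1) + ((u : ℝ) - v + 1) * al a b u (v - 1) := by ring
    rw [← e3]; exact this

end Pool.Agent.Helper37.Arb
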