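import Pool.Agent.Helper37.Arb.Goals

/-!
The main identity for products of parallel tangles.
-/

namespace Pool.Agent.Helper37.Arb

/-- functions that vanish outside `[-K, K]` -/
def VB (K : ℤ) (f : ℤ → ℝ) : Prop := ∀ s, (s < -K ∨ K < s) → f s = 0

theorem exists_VB {f : ℤ → ℝ} (hf : (Function.support f).Finite) : ∃ K, 0 ≤ K ∧ VB K f := by
  obtain ⟨a, ha⟩ := hf.bddAbove
  obtain ⟨c, hc⟩ := hf.bddBelow
  refine ⟨max |a| |c|, le_max_of_le_left (abs_nonneg a), fun s hs => ?_⟩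
  by_contra h
  have h1 : s ≤ a := ha h
  have h2 : c ≤ s := hc h
  have h3 := le_abs_self a
  have h4 := neg_abs_le c
  have h5 := le_max_left |a| |c|
  have h6 := le_max_right |a| |c|
  omega

theorem VB.mono {K K' : ℤ} {f : ℤ → ℝ} (h : VB K f) (hK : K ≤ K') : VB K' f :=
  fun s hs => h s (by omega)

/-- the window -/
noncomputable def E (K : ℤ) : Finset ℤ := Finset.Icc (-(K + 5)) (K + 5)

theorem conv_eq {K : ℤ} {f : ℤ → ℝ} (hf : VB K f) (g : ℤ → ℝ) (v c : ℤ) (hc : -3 ≤ c)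
    (hc' : c ≤ 3) : conv f g v = ∑ i ∈ E K, f (i + c) * g (v - i - c) := by
  unfold conv
  have h1 : ∑ᶠ i : ℤ, f i * g (v - i) = ∑ᶠ i : ℤ, f (i + c) * g (v - i - c) := by
    rw [← finsum_comp_equiv (Equiv.addRight c)]
    refine finsum_congr fun i => ?_
    simp only [Equiv.coe_addRight]
    congr 2
    ring
  rw [h1]
  apply finsum_eq_sum_of_support_subset
  intro i hi
  simp only [Function.mem_support, ne_eq, mul_eq_zero, not_or] at hi
  simp only [E, Finset.coe_Icc, Set.mem_Icc]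
  by_contra h
  exact hi.1 (hf _ (by omega))

/-- double sums over the window -/
noncomputable def S (K : ℤ) (φ : ℤ → ℤ → ℝ) : ℝ := ∑ I ∈ E K, ∑ J ∈ E K, φ I J

theorem S_congr {K : ℤ} {φ ψ : ℤ → ℤ → ℝ} (h : ∀ I J, φ I J = ψ I J) : S K φ = S K ψ :=
  Finset.sum_congr rfl fun _ _ => Finset.sum_congr rfl fun _ _ => h _ _

theorem S_add {K : ℤ} (φ ψ : ℤ → ℤ → ℝ) : S K (fun I J => φ I J + ψ I J) = S K φ + S K ψ := by
  simp only [S, Finset.sum_add_distrib]

theorem S_sub {K : ℤ} (φ ψ : ℤ → ℤ → ℝ) : S K (fun I J => φ I J - ψ I J) = S K φ - S K ψ := by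
  simp only [S, Finset.sum_sub_distrib]

theorem S_swap {K : ℤ} (φ : ℤ → ℤ → ℝ) : S K (fun I J => φ J I) = S K φ := by
  unfold S
  exact Finset.sum_comm

theorem S_nonneg {K : ℤ} {φ : ℤ → ℤ → ℝ} (h : ∀ I J, 0 ≤ φ I J) : 0 ≤ S K φ :=
  Finset.sum_nonneg fun _ _ => Finset.sum_nonneg fun _ _ => h _ _

theorem sum_shift {K c : ℤ} (hc : -1 ≤ c) (hc' : c ≤ 1) {f : ℤ → ℝ} (hf : VB (K + 3) f) :
    ∑ i ∈ E K, f (i + c) = ∑ i ∈ E K, f i := by
  have h1 : ∑ᶠ i : ℤ, f (i + c) = ∑ᶠ i : ℤ, f i := by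
    rw [← finsum_comp_equiv (Equiv.addRight c) (f := f)]
    rfl
  have h2 : ∑ᶠ i : ℤ, f i = ∑ i ∈ E K, f i := by
    apply finsum_eq_sum_of_support_subset
    intro i hi
    simp only [E, Finset.coe_Icc, Set.mem_Icc]
    by_contra h
    exact hi (hf _ (by omega))
  have h3 : ∑ᶠ i : ℤ, f (i + c) = ∑ i ∈ E K, f (i + c) := by
    apply finsum_eq_sum_of_support_subset
    intro i hi
    simp only [E, Finset.coe_Icc, Set.mem_Icc]
    by_contra h
    exact hi (hf _ (by omega))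
  rw [← h3, h1, h2]

/-- shift of both variables -/
theorem S_shift {K c d : ℤ} (hc : -1 ≤ c) (hc' : c ≤ 1) (hd : -1 ≤ d) (hd' : d ≤ 1)
    {φ : ℤ → ℤ → ℝ} (h1 : ∀ J, VB (K + 3) fun I => φ I J) (h2 : ∀ I, VB (K + 3) (φ I)) :
    S K (fun I J => φ (I + c) (J + d)) = S K φ := by
  unfold S
  have h3 : ∀ I, ∑ J ∈ E K, φ (I + c) (J + d) = ∑ J ∈ E K, φ (I + c) J := fun I =>
    sum_shift hd hd' (h2 _)
  simp only [h3]
  rw [sum_shift (f := fun I => ∑ J ∈ E K, φ I J) hc hc']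
  intro s hs
  exact Finset.sum_eq_zero fun J _ => h1 J s hs

theorem mul_S {K : ℤ} (u w : ℤ → ℝ) :
    (∑ i ∈ E K, u i) * (∑ j ∈ E K, w j) = S K fun I J => u I * w J := by
  unfold S
  rw [Finset.sum_mul_sum]

section identity

variable (L₁ R₁ b₁ L₂ R₂ b₂ : ℤ → ℝ)

/-- `b I L J - b (I-1) L (J+1)` -/
def XX (L b : ℤ → ℝ) (I J : ℤ) : ℝ := b I * L J - b (I - 1) * L (J + 1)

/-- `b I L J - L (I+1) b (J-1)` -/
def CC (L b : ℤ → ℝ) (I J : ℤ) : ℝ := b I * L J - L (I + 1) * b (J - 1)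

/-- `L I R J - L (I+1) R (J-1)` -/
def BB (L R : ℤ → ℝ) (I J : ℤ) : ℝ := L I * R J - L (I + 1) * R (J - 1)

theorem XX_add (L b : ℤ → ℝ) (I J : ℤ) :
    XX L b J I = CC L b I J - CC L b (I - 1) (J + 1) - XX L b I J := by
  unfold XX CC
  rw [show I - 1 + 1 = I by ring, show J + 1 - 1 = J by ring]
  ring

theorem XX_diag (L b : ℤ → ℝ) (I : ℤ) : XX L b I I = CC L b I I := by
  unfold XX CC
  ring

theorem CC_off (L b : ℤ → ℝ) (I : ℤ) : CC L b I (I + 1) = 0 := by
  unfold CC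
  rw [show I + 1 - 1 = I by ring]
  ring

variable {L₁ R₁ b₁ L₂ R₂ b₂}
variable {K : ℤ} {v : ℤ}

theorem step1 (hL : VB K L₁) (hR : VB K R₁) (hb : VB K b₁) (v : ℤ) :
    conv L₁ L₂ v * (conv R₁ b₂ v + conv b₁ L₂ v) -
      conv L₁ L₂ (v + 1) * (conv R₁ b₂ (v - 1) + conv b₁ L₂ (v - 1)) =
    S K fun I J => R₁ I * L₁ J * XX L₂ b₂ (v - I) (v - J) +
      XX L₁ b₁ I J * (L₂ (v - I) * L₂ (v - J)) := by
  have e1 := conv_eq hL L₂ v 0 (by norm_num) (by norm_num)
  have e2 := conv_eq hR b₂ v 0 (by norm_num) (by norm_num)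
  have e3 := conv_eq hb L₂ v 0 (by norm_num) (by norm_num)
  have e4 := conv_eq hL L₂ (v + 1) 0 (by norm_num) (by norm_num)
  have e4' := conv_eq hL L₂ (v + 1) 1 (by norm_num) (by norm_num)
  have e5 := conv_eq hR b₂ (v - 1) 0 (by norm_num) (by norm_num)
  have e6 := conv_eq hb L₂ (v - 1) (-1) (by norm_num) (by norm_num)
  have h1 : conv L₁ L₂ v * (conv R₁ b₂ v + conv b₁ L₂ v) -
      conv L₁ L₂ (v + 1) * (conv R₁ b₂ (v - 1) + conv b₁ L₂ (v - 1)) =
      conv R₁ b₂ v * conv L₁ L₂ v + conv b₁ L₂ v * conv L₁ L₂ v -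
        conv R₁ b₂ (v - 1) * conv L₁ L₂ (v + 1) - conv b₁ L₂ (v - 1) * conv L₁ L₂ (v + 1) := by
    ring
  rw [h1, e2, e1, e3, e5]
  nth_rewrite 1 [e4]
  rw [e6, e4', mul_S, mul_S, mul_S, mul_S, ← S_add, ← S_sub, ← S_sub]
  refine S_congr fun I J => ?_
  unfold XX
  simp only [add_zero, sub_zero]
  rw [show v - 1 - I = v - I - 1 by ring, show v + 1 - J = v - J + 1 by ring,
    show I + -1 = I - 1 by ring, show v - I - 1 - -1 = v - I by ring,
    show v - J + 1 - 1 = v - J by ring]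
  ring

/-- splitting into the half planes -/
theorem S_split (φ : ℤ → ℤ → ℝ) :
    S K φ = S K fun I J => (if J ≤ I then φ I J else 0) + (if J < I then φ J I else 0) := by
  rw [S_add, ← S_swap fun I J => (if J < I then φ J I else 0)]
  rw [← S_add]
  refine S_congr fun I J => ?_
  by_cases h : J ≤ I
  · simp [h, not_lt.mpr h]
  · simp [h, not_le.mp h]

theorem step3 (hL : VB K L₁) (hb : VB K b₁) (v : ℤ) :
    (S K fun I J => XX L₁ b₁ I J * (L₂ (v - I) * L₂ (v - J))) =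
    S K fun I J => if J ≤ I then CC L₁ b₁ I J *
      (L₂ (v - I) * L₂ (v - J) - L₂ (v - I - 1) * L₂ (v - J + 1)) else 0 := by
  rw [S_split]
  have h1 : S K (fun I J => if J ≤ I then CC L₁ b₁ I J * (L₂ (v - I - 1) * L₂ (v - J + 1))
      else 0) = S K fun I J => if J < I then CC L₁ b₁ (I - 1) (J + 1) *
        (L₂ (v - I) * L₂ (v - J)) else 0 := by
    rw [← S_shift (c := -1) (d := 1) (by norm_num) (by norm_num) (by norm_num) (by norm_num)]
    · refine S_congr fun I J => ?_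
      rw [show I + -1 = I - 1 by ring, show v - (I - 1) - 1 = v - I by ring,
        show v - (J + 1) + 1 = v - J by ring]
      by_cases h2 : J < I
      · by_cases h3 : J + 1 ≤ I - 1
        · simp [h2, h3]
        · have h4 : J + 1 = I - 1 + 1 := by omega
          simp only [h2, if_true, h3, if_false]
          rw [h4, CC_off]
          ring
      · have h3 : ¬ J + 1 ≤ I - 1 := by omega
        simp [h2, h3]
    · intro J s hs
      have h5 : CC L₁ b₁ s J = 0 := by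
        unfold CC
        rw [hb s (by omega), hL (s + 1) (by omega)]
        ring
      simp [h5]
    · intro I s hs
      have h5 : CC L₁ b₁ I s = 0 := by
        unfold CC
        rw [hL s (by omega), hb (s - 1) (by omega)]
        ring
      simp [h5]
  have h2 : (S K fun I J => if J ≤ I then CC L₁ b₁ I J *
      (L₂ (v - I) * L₂ (v - J) - L₂ (v - I - 1) * L₂ (v - J + 1)) else 0) =
      (S K fun I J => if J ≤ I then CC L₁ b₁ I J * (L₂ (v - I) * L₂ (v - J)) else 0) -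
      S K fun I J => if J ≤ I then CC L₁ b₁ I J * (L₂ (v - I - 1) * L₂ (v - J + 1))
        else 0 := by
    rw [← S_sub]
    refine S_congr fun I J => ?_
    split_ifs <;> ring
  rw [h2, h1, ← S_sub]
  refine S_congr fun I J => ?_
  rcases lt_trichotomy J I with h | h | h
  · simp only [h, h.le, if_true]
    rw [XX_add L₁ b₁ I J]
    ring
  · subst h
    simp only [le_refl, lt_irrefl, if_true, if_false]
    rw [XX_diag]
    ring
  · simp [not_le.mpr h, not_lt.mpr h.le]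

theorem step4 (hL : VB K L₁) (hR : VB K R₁) (v : ℤ) :
    (S K fun I J => R₁ I * L₁ J * XX L₂ b₂ (v - I) (v - J)) =
    S K fun I J => if J ≤ I then (R₁ I * L₁ J - R₁ J * L₁ I) * XX L₂ b₂ (v - I) (v - J) +
      BB L₁ R₁ I J * CC L₂ b₂ (v - J) (v - I) else 0 := by
  rw [S_split]
  have h1 : S K (fun I J => if J ≤ I then R₁ (J - 1) * L₁ (I + 1) * CC L₂ b₂ (v - J) (v - I)
      else 0) = S K fun I J => if J < I then R₁ J * L₁ I * CC L₂ b₂ (v - J - 1) (v - I + 1)
        else 0 := by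
    rw [← S_shift (c := -1) (d := 1) (by norm_num) (by norm_num) (by norm_num) (by norm_num)]
    · refine S_congr fun I J => ?_
      rw [show I + -1 = I - 1 by ring, show v - (I - 1) = v - I + 1 by ring,
        show v - (J + 1) = v - J - 1 by ring, show J + 1 - 1 = J by ring,
        show I - 1 + 1 = I by ring]
      by_cases h2 : J < I
      · by_cases h3 : J + 1 ≤ I - 1
        · simp [h2, h3]
        · have h4 : v - I + 1 = v - J - 1 + 1 := by omega
          simp only [h2, if_true, h3, if_false]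
          rw [h4, CC_off]
          ring
      · have h3 : ¬ J + 1 ≤ I - 1 := by omega
        simp [h2, h3]
    · intro J s hs
      simp [hL (s + 1) (by omega)]
    · intro I s hs
      simp [hR (s - 1) (by omega)]
  have h2 : (S K fun I J => if J ≤ I then (R₁ I * L₁ J - R₁ J * L₁ I) *
      XX L₂ b₂ (v - I) (v - J) + BB L₁ R₁ I J * CC L₂ b₂ (v - J) (v - I) else 0) =
      (S K fun I J => if J ≤ I then (R₁ I * L₁ J - R₁ J * L₁ I) *
        XX L₂ b₂ (v - I) (v - J) + R₁ J * L₁ I * CC L₂ b₂ (v - J) (v - I) else 0) -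
      S K fun I J => if J ≤ I then R₁ (J - 1) * L₁ (I + 1) * CC L₂ b₂ (v - J) (v - I)
        else 0 := by
    rw [← S_sub]
    refine S_congr fun I J => ?_
    unfold BB
    split_ifs <;> ring
  rw [h2, h1, ← S_sub]
  refine S_congr fun I J => ?_
  rcases lt_trichotomy J I with h | h | h
  · simp only [h, h.le, if_true]
    rw [XX_add L₂ b₂ (v - J) (v - I)]
    ring
  · subst h
    simp only [le_refl, lt_irrefl, if_true, if_false]
    rw [XX_diag]
    ring
  · simp [not_le.mpr h, not_lt.mpr h.le]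

theorem step6 (hL : VB K L₁) (hb : VB K b₁) (v : ℤ) :
    (S K fun I J => if J ≤ I then CC L₁ b₁ I J * XX L₂ b₂ (v - I - 1) (v - J) else 0) =
    S K fun I J => if J ≤ I then CC L₁ b₁ (I - 1) J * XX L₂ b₂ (v - I) (v - J) else 0 := by
  rw [← S_shift (c := -1) (d := 0) (by norm_num) (by norm_num) (by norm_num) (by norm_num)]
  · refine S_congr fun I J => ?_
    rw [show I + -1 = I - 1 by ring, add_zero, show v - (I - 1) - 1 = v - I by ring]
    by_cases h2 : J ≤ I - 1
    · have h3 : J ≤ I := by omega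
      simp [h2, h3]
    · by_cases h3 : J ≤ I
      · have h4 : J = I - 1 + 1 := by omega
        simp only [h2, h3, if_true, if_false]
        rw [h4, CC_off]
        ring
      · simp [h2, h3]
  · intro J s hs
    have h5 : CC L₁ b₁ s J = 0 := by
      unfold CC
      rw [hb s (by omega), hL (s + 1) (by omega)]
      ring
    simp [h5]
  · intro I s hs
    have h5 : CC L₁ b₁ I s = 0 := by
      unfold CC
      rw [hL s (by omega), hb (s - 1) (by omega)]
      ring
    simp [h5]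

/-- The main identity. -/
theorem main_identity (hL : VB K L₁) (hR : VB K R₁) (hb : VB K b₁)
    (h1 : ∀ s, b₁ s - b₁ (s - 1) = L₁ s - R₁ s) (h2 : ∀ s, b₂ s - b₂ (s - 1) = L₂ s - R₂ s)
    (v : ℤ) :
    conv L₁ L₂ v * (conv R₁ b₂ v + conv b₁ L₂ v) -
      conv L₁ L₂ (v + 1) * (conv R₁ b₂ (v - 1) + conv b₁ L₂ (v - 1)) =
    S K fun I J => if J ≤ I then
      XX L₁ b₁ J I * XX L₂ b₂ (v - I) (v - J) +
      BB L₁ R₁ I J * CC L₂ b₂ (v - J) (v - I) +
      CC L₁ b₁ I J * BB L₂ R₂ (v - J) (v - I) else 0 := by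
  rw [step1 hL hR hb, S_add, step3 hL hb, step4 hL hR]
  have h3 : (S K fun I J => if J ≤ I then CC L₁ b₁ I J *
      (L₂ (v - I) * L₂ (v - J) - L₂ (v - I - 1) * L₂ (v - J + 1)) else 0) =
      (S K fun I J => if J ≤ I then CC L₁ b₁ I J *
        (BB L₂ R₂ (v - J) (v - I) + XX L₂ b₂ (v - I) (v - J)) else 0) -
      S K fun I J => if J ≤ I then CC L₁ b₁ I J * XX L₂ b₂ (v - I - 1) (v - J) else 0 := by
    rw [← S_sub]
    refine S_congr fun I J => ?_
    have e1 := h2 (v - I)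
    have e2 := h2 (v - I - 1)
    have e3 : L₂ (v - I) = R₂ (v - I) + b₂ (v - I) - b₂ (v - I - 1) := by linarith
    have e4 : L₂ (v - I - 1) = R₂ (v - I - 1) + b₂ (v - I - 1) - b₂ (v - I - 1 - 1) := by
      linarith
    by_cases h : J ≤ I
    · simp only [h, if_true]
      unfold BB XX
      have e5 : L₂ (v - I) * L₂ (v - J) - L₂ (v - I - 1) * L₂ (v - J + 1) =
          (R₂ (v - I) + b₂ (v - I) - b₂ (v - I - 1)) * L₂ (v - J) -
          (R₂ (v - I - 1) + b₂ (v - I - 1) - b₂ (v - I - 1 - 1)) * L₂ (v - J + 1) := by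
        rw [← e3, ← e4]
      rw [e5]
      ring
    · simp [h]
  rw [h3, step6 hL hb, ← S_sub, ← S_add]
  refine S_congr fun I J => ?_
  by_cases h : J ≤ I
  · simp only [h, if_true]
    have e1 := h1 I
    have e2 := h1 J
    have e3 : (R₁ I * L₁ J - R₁ J * L₁ I) + (CC L₁ b₁ I J - CC L₁ b₁ (I - 1) J) =
        XX L₁ b₁ J I := by
      unfold CC XX
      rw [show I - 1 + 1 = I by ring]
      have e4 : R₁ I = L₁ I - b₁ I + b₁ (I - 1) := by linarith
      have e5 : R₁ J = L₁ J - b₁ J + b₁ (J - 1) := by linarith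
      rw [e4, e5]
      ring
    rw [← e3]
    ring
  · simp [h]

end identity

theorem prod : GoalProd := by
  intro L₁ R₁ b₁ L₂ R₂ b₂ hr1 hr2 hn1 hn2 v
  obtain ⟨hL1, hR1, hb1, h1⟩ := hr1
  obtain ⟨hL2, hR2, hb2, h2⟩ := hr2
  obtain ⟨K₁, hK1, hL⟩ := exists_VB hL1
  obtain ⟨K₂, hK2, hR⟩ := exists_VB hR1
  obtain ⟨K₃, hK3, hb⟩ := exists_VB hb1
  have hL := hL.mono (le_max_left K₁ (max K₂ K₃))
  have hR := hR.mono ((le_max_left K₂ K₃).trans (le_max_right K₁ (max K₂ K₃)))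
  have hb := hb.mono ((le_max_right K₂ K₃).trans (le_max_right K₁ (max K₂ K₃)))
  have hid := main_identity hL hR hb h1 h2 v
  have hnn : 0 ≤ S (max K₁ (max K₂ K₃)) fun I J => if J ≤ I then
      XX L₁ b₁ J I * XX L₂ b₂ (v - I) (v - J) +
      BB L₁ R₁ I J * CC L₂ b₂ (v - J) (v - I) +
      CC L₁ b₁ I J * BB L₂ R₂ (v - J) (v - I) else 0 := by
    refine S_nonneg fun I J => ?_
    by_cases h : J ≤ I
    · simp only [h, if_true]
      obtain ⟨p1, p2, p3⟩ := hn1 I J h
      obtain ⟨q1, q2, q3⟩ := hn2 (v - J) (v - I) (by omega)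
      have a1 : 0 ≤ XX L₁ b₁ J I := by unfold XX; nlinarith
      have a2 : 0 ≤ XX L₂ b₂ (v - I) (v - J) := by unfold XX; nlinarith
      have a3 : 0 ≤ BB L₁ R₁ I J := by unfold BB; linarith
      have a4 : 0 ≤ BB L₂ R₂ (v - J) (v - I) := by unfold BB; linarith
      have c1 : CC L₁ b₁ I J = b₁ I * (b₁ J + R₁ J) - (b₁ (I + 1) + R₁ (I + 1)) * b₁ (J - 1) := by
        unfold CC
        have e1 := h1 (I + 1)
        have e2 := h1 J
        rw [show I + 1 - 1 = I by ring] at e1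
        have e3 : b₁ (I + 1) + R₁ (I + 1) = b₁ I + L₁ (I + 1) := by linarith
        have e4 : b₁ J + R₁ J = b₁ (J - 1) + L₁ J := by linarith
        rw [e3, e4]
        ring
      have c2 : CC L₂ b₂ (v - J) (v - I) = b₂ (v - J) * (b₂ (v - I) + R₂ (v - I)) -
          (b₂ (v - J + 1) + R₂ (v - J + 1)) * b₂ (v - I - 1) := by
        unfold CC
        have e1 := h2 (v - J + 1)
        have e2 := h2 (v - I)
        rw [show v - J + 1 - 1 = v - J by ring] at e1
        have e3 : b₂ (v - J + 1) + R₂ (v - J + 1) = b₂ (v - J) + L₂ (v - J + 1) := by linarith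
        have e4 : b₂ (v - I) + R₂ (v - I) = b₂ (v - I - 1) + L₂ (v - I) := by linarith
        rw [e3, e4]
        ring
      have a5 : 0 ≤ CC L₁ b₁ I J := by rw [c1]; linarith
      have a6 : 0 ≤ CC L₂ b₂ (v - J) (v - I) := by rw [c2]; linarith
      positivity
    · simp [h]
  have ha : ∀ w, conv R₁ b₂ w + conv b₁ L₂ w + conv R₁ R₂ w =
      (conv R₁ b₂ (w - 1) + conv b₁ L₂ (w - 1)) + conv L₁ L₂ w := by
    intro w
    have k1 := conv_eq hR b₂ w 0 (by norm_num) (by norm_num)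
    have k2 := conv_eq hb L₂ w 0 (by norm_num) (by norm_num)
    have k3 := conv_eq hR R₂ w 0 (by norm_num) (by norm_num)
    have k4 := conv_eq hR b₂ (w - 1) 0 (by norm_num) (by norm_num)
    have k5 := conv_eq hb L₂ (w - 1) (-1) (by norm_num) (by norm_num)
    have k6 := conv_eq hL L₂ w 0 (by norm_num) (by norm_num)
    rw [k1, k2, k3, k4, k5, k6, ← Finset.sum_add_distrib, ← Finset.sum_add_distrib,
      ← Finset.sum_add_distrib, ← Finset.sum_add_distrib]
    refine Finset.sum_congr rfl fun i _ => ?_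
    simp only [add_zero, sub_zero]
    rw [show w - 1 - i = w - i - 1 by ring, show i + -1 = i - 1 by ring,
      show w - i - 1 - -1 = w - i by ring]
    have e1 := h2 (w - i)
    have e2 := h1 i
    have e3 : R₂ (w - i) = L₂ (w - i) - b₂ (w - i) + b₂ (w - i - 1) := by linarith
    have e4 : R₁ i = L₁ i - b₁ i + b₁ (i - 1) := by linarith
    rw [e3, e4]
    ring
  rw [ha v, ha (v + 1)]
  rw [show v + 1 - 1 = v by ring]
  nlinarith [hid, hnn]

end Pool.Agent.Helper37.Arb
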