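import Pool.Agent.Helper37.Arb.Planar
import Pool.Agent.Helper37.Arb.Final
import Pool.Agent.Helper37.Arb.Prod
import Pool.Agent.Helper37.Arb.Gbeside
import Pool.Agent.Helper96.Arb.Index
import Pool.Agent.Helper39.Arb.Data
import Pool.Agent.Helper94.Arb.Detblock
import Pool.Agent.Helper12.Arb.Mat
import Pool.Agent.Helper82.Arb.Rstack
import Pool.Agent.Helper91.Arb.Rbeside
import Pool.Agent.Helper24.Arb.Ropp
import Pool.Agent.Helper86.Arb.Rsum
import Pool.Agent.Helper14.Arb.Rturn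
import Pool.Agent.Helper9.Arb.Rflip
import Pool.Agent.Helper49.Arb.Cofactor
import Pool.Agent.Helper19.Arb.Close
import Pool.Agent.Helper54.Arb.Coeff
import Pool.Agent.Helper56.Arb.Seqmul
import Pool.Agent.Helper53.Arb.Cb
import Pool.Agent.Helper32.Arb.Nest
import Pool.Agent.Helper32.Arb.Gsum
import Pool.Agent.Helper81.Arb.Gstack
import Pool.Agent.Helper2.Arb.Pal
import Pool.Agent.Helper46.Arb.All
import Pool.Agent.Helper52.Arb.Gsum
import Pool.Agent.Helper52.Arb.ClosPair

/-! PROJECT ARB: the main theorem -/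

namespace Pool.Agent.Helper37.Arb

open Pool.Agent

theorem resp_all : (∀ T : Tangle true, ∃ j, Resp2 T.diag j T.data.l T.data.r T.data.f) ∧
    (∀ P : Tangle false, ∃ j, Resp1 P.diag j P.data.l P.data.f) :=
  Helper46.Arb.respAll Helper96.Arb.index Helper39.Arb.data2 Helper39.Arb.data1
    Helper82.Arb.respCross
    ⟨Helper12.Arb.matStack, Helper12.Arb.matBeside, Helper12.Arb.matOpposite,
      Helper12.Arb.matSum, Helper94.Arb.detBlock⟩
    Helper82.Arb.respStack Helper91.Arb.respBeside Helper24.Arb.respOpposite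
    Helper86.Arb.respSum Helper14.Arb.respTurn Helper9.Arb.respFlip

theorem good_stack : ∀ N₁ k₁ N₂ k₂ : ℤ, ∀ L₁ b₁ L₂ b₂ : ℤ → ℝ,
    Good2 N₁ k₁ L₁ b₁ → Good2 N₂ k₂ L₂ b₂ →
    Good2 (N₁ + N₂) (k₁ + k₂) (conv L₁ L₂) (conv (fun s => L₁ (N₁ - s)) b₂ + conv b₁ L₂) :=
  Helper81.Arb.goodStack prod Helper32.Arb.nest2

theorem good_all :
    (∀ T : Tangle true, T.Small → ∃ k, Good2 T.data.N k (seq T.data.L) (seq T.data.b)) ∧
    (∀ P : Tangle false, P.Small → ∃ k k', Good1 P.data.N k k' (seq P.data.L)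
      (seq P.data.b)) :=
  Helper46.Arb.goodAll Helper56.Arb.seqMul Helper39.Arb.data2 Helper2.Arb.pal
    Helper32.Arb.goodCross Helper32.Arb.goodTurn
    (Helper32.Arb.goodSum Helper53.Arb.cb Helper32.Arb.nest1)
    (goodBeside Helper53.Arb.cb Helper32.Arb.nest1)
    good_stack

theorem main : FinalGood :=
  finalGood_of Helper56.Arb.seqMul Helper39.Arb.data2 Helper39.Arb.data1 Helper2.Arb.pal
    Helper53.Arb.cb Helper32.Arb.nest1 good_all.1
    (Helper52.Arb.closPair Helper53.Arb.cb Helper32.Arb.nest1 Helper32.Arb.nest2 good_stack)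
    (Helper52.Arb.gSum Helper53.Arb.cb) Helper54.Arb.coeff resp_all
    (Helper19.Arb.close Helper96.Arb.index Helper49.Arb.cofactor Helper94.Arb.detOne)

end Pool.Agent.Helper37.Arb
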