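import Pool.Agent.Helper37.Arb.Faces4

/-! The diagrams of tangles are connected and planar. Part 5: assembly. -/

namespace Pool.Agent.Helper37.Arb

open Pool.Agent.Helper36.SC AltDiagram

/-- mirror of a corner -/
def mir {V : Type} (c : V × Corner) : V × Corner :=
  (c.1, match c.2 with
    | .left => .right
    | .right => .left
    | .front => .front
    | .back => .back)

theorem mir_mir {V : Type} (c : V × Corner) : mir (mir c) = c := by
  rcases c with ⟨v, c⟩
  cases c <;> rfl

theorem card_corner : Nat.card Corner = 4 := by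
  rw [Nat.card_eq_fintype_card]; rfl

theorem faces_cross : Nonempty (Faces true Tangle.cross.diag.D Tangle.cross.diag.l
    Tangle.cross.diag.r Corner) := by
  have hV : ∀ v w : Tangle.cross.diag.V, v = w := fun v w => Subsingleton.elim (α := Unit) v w
  have hn : ∀ c c', ¬ Opn true Tangle.cross.diag.D Tangle.cross.diag.l Tangle.cross.diag.r c c' := by
    intro c c' h
    cases h with
    | oL v hv => exact hv rfl (hV _ _)
    | oR v hv => exact hv rfl (hV _ _)
    | uL v h1 h2 => exact h1 (hV _ _)
    | uR v h1 h2 => exact h1 (hV _ _)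
  refine ⟨{
    ρ := fun c => c.2
    N := .front
    S := .back
    W := .left
    E := .right
    NS := by decide
    NW := by decide
    NE := by decide
    SW := by decide
    SE := by decide
    WE := by decide
    fin := inferInstance
    card := ?_
    surj := fun c => ⟨((), c), rfl⟩
    sound := fun c c' h => absurd h (hn c c')
    conn := ?_
    l1 := rfl
    l2 := rfl
    l3 := rfl
    l4 := rfl
    t1 := fun _ => rfl
    t2 := fun _ => rfl
    t3 := fun _ => rfl
    t4 := fun _ => rfl
    f0 := by simp
    f1 := by simp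
    f2 := by simp
    f3 := by simp
    f4 := by simp }⟩
  · rw [card_corner]
    have : Nat.card Tangle.cross.diag.V = 1 := Nat.card_unique (α := Unit)
    omega
  · refine ⟨?_, ?_⟩
    · rintro ⟨v, c⟩ ⟨w, c'⟩ h
      have : c = c' := h
      subst this
      rw [hV v w]
      exact .refl _
    · intro v w
      rw [hV v w]
      exact .refl _

/-- change of the diagram by a mirror image -/
theorem faces_mir {s s' : Bool} {V F : Type} {D D' : AltDiagram V} {l r l' r' : V}
    (G : Faces s D l r F) (h : ∀ a b, Opn s D l r a b → Opn s' D' l' r' (mir a) (mir b))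
    (h' : ∀ a b, Opn s' D' l' r' a b → Opn s D l r (mir a) (mir b)) :
    (Function.Surjective (G.ρ ∘ mir)) ∧
    (∀ c c', Opn s' D' l' r' c c' → (G.ρ ∘ mir) c = (G.ρ ∘ mir) c') ∧
    (∀ c c', (G.ρ ∘ mir) c = (G.ρ ∘ mir) c' → Relation.EqvGen (Opn s' D' l' r') c c') ∧
    ∀ v w : V, Relation.EqvGen (fun v w => ∃ c c', Opn s' D' l' r' (v, c) (w, c')) v w := by
  refine ⟨?_, ?_, ?_, ?_⟩
  · intro x
    obtain ⟨c, rfl⟩ := G.surj x
    exact ⟨mir c, by simp [mir_mir]⟩
  · intro c c' hc
    exact G.sound _ _ (h' _ _ hc)
  · intro c c' hc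
    have := eqvGen_map mir h (G.conn.1 _ _ hc)
    rwa [mir_mir, mir_mir] at this
  · intro v w
    exact eqvGen_map (r' := fun v w => ∃ c c', Opn s' D' l' r' (v, c) (w, c')) id
      (fun a b ⟨c, c', hc⟩ => ⟨(mir (a, c)).2, (mir (b, c')).2, h _ _ hc⟩) (G.conn.2 v w)

section mirflip

variable {V : Type} (D : AltDiagram V)

/-- flipped diagram -/
def flD : AltDiagram V := ⟨D.pos, D.underNext, D.overNext⟩

variable (v : V)
theorem fl1 : oL (flD D) v = mir (uR D v) := by
  unfold oL uR mir flD; cases D.pos v <;> rfl
theorem fl2 : oR (flD D) v = mir (uL D v) := by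
  unfold oR uL mir flD; cases D.pos v <;> rfl
theorem fl3 : uL (flD D) v = mir (oR D v) := by
  unfold uL oR mir flD; cases D.pos v <;> rfl
theorem fl4 : uR (flD D) v = mir (oL D v) := by
  unfold uR oL mir flD; cases D.pos v <;> rfl
theorem fl5 : iL (flD D) v = mir (jR D v) := by
  unfold iL jR mir flD; cases D.pos v <;> rfl
theorem fl6 : iR (flD D) v = mir (jL D v) := by
  unfold iR jL mir flD; cases D.pos v <;> rfl
theorem fl7 : jL (flD D) v = mir (iR D v) := by
  unfold jL iR mir flD; cases D.pos v <;> rfl
theorem fl8 : jR (flD D) v = mir (iL D v) := by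
  unfold jR iL mir flD; cases D.pos v <;> rfl

end mirflip

theorem faces_flip {V F : Type} {D : AltDiagram V} {l r : V}
    (G : Faces true D l r F) : Nonempty (Faces true (flD D) r l F) := by
  have H := faces_mir (s' := true) (D' := flD D) (l' := r) (r' := l) G ?_ ?_
  · obtain ⟨h1, h2, h3, h4⟩ := H
    refine ⟨{
      ρ := G.ρ ∘ mir
      N := G.N
      S := G.S
      W := G.E
      E := G.W
      NS := G.NS
      NW := G.NE
      NE := G.NW
      SW := G.SE
      SE := G.SW
      WE := G.WE.symm
      fin := G.fin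
      card := G.card
      surj := h1
      sound := h2
      conn := ⟨h3, h4⟩
      l1 := ?_
      l2 := ?_
      l3 := ?_
      l4 := ?_
      t1 := fun _ => ?_
      t2 := fun _ => ?_
      t3 := fun _ => ?_
      t4 := fun _ => ?_
      f0 := by simp
      f1 := by simp
      f2 := by simp
      f3 := by simp
      f4 := by simp }⟩
    · simp only [Function.comp, fl3, mir_mir, G.t3]
    · simp only [Function.comp, fl7, mir_mir]; exact G.t4 rfl
    · simp only [Function.comp, fl4, mir_mir, G.t1]
    · simp only [Function.comp, fl8, mir_mir]; exact G.t2 rfl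
    · simp only [Function.comp, fl1, mir_mir, G.l3]
    · simp only [Function.comp, fl5, mir_mir]; exact G.l4
    · simp only [Function.comp, fl2, mir_mir, G.l1]
    · simp only [Function.comp, fl6, mir_mir]; exact G.l2
  · intro a b h
    cases h with
    | oL v hv =>
      have := Opn.uR (s := true) (D := flD D) (l := r) (r := l) v (hv rfl) (by simp)
      rwa [fl4, fl8] at this
    | oR v hv =>
      have := Opn.uL (s := true) (D := flD D) (l := r) (r := l) v (hv rfl) (by simp)
      rwa [fl3, fl7] at this
    | uL v h1 h2 =>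
      have := Opn.oR (s := true) (D := flD D) (l := r) (r := l) v (fun _ => h1)
      rwa [fl2, fl6] at this
    | uR v h1 h2 =>
      have := Opn.oL (s := true) (D := flD D) (l := r) (r := l) v (fun _ => h1)
      rwa [fl1, fl5] at this
  · intro a b h
    cases h with
    | oL v hv =>
      rw [fl1, fl5, mir_mir, mir_mir]
      exact Opn.uR (s := true) v (hv rfl) (by simp)
    | oR v hv =>
      rw [fl2, fl6, mir_mir, mir_mir]
      exact Opn.uL (s := true) v (hv rfl) (by simp)
    | uL v h1 h2 =>
      rw [fl3, fl7, mir_mir, mir_mir]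
      exact Opn.oR (s := true) v (fun _ => h1)
    | uR v h1 h2 =>
      rw [fl4, fl8, mir_mir, mir_mir]
      exact Opn.oL (s := true) v (fun _ => h1)

section mirturn

variable {V : Type} [DecidableEq V] (D : AltDiagram V) (l r : V)

/-- turned diagram -/
def tuD : AltDiagram V := ⟨fun v => !D.pos v, D.overNext, (Equiv.swap l r).trans D.underNext⟩

variable (v : V)
theorem tu1 : oL (tuD D l r) v = mir (oR D v) := by
  cases h : D.pos v <;> simp [oL, oR, mir, tuD, h]
theorem tu2 : oR (tuD D l r) v = mir (oL D v) := by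
  cases h : D.pos v <;> simp [oR, oL, mir, tuD, h]
theorem tu3 : uL (tuD D l r) v = mir (uR D v) := by
  cases h : D.pos v <;> simp [uL, uR, mir, tuD, h]
theorem tu4 : uR (tuD D l r) v = mir (uL D v) := by
  cases h : D.pos v <;> simp [uR, uL, mir, tuD, h]
theorem tu5 : iL (tuD D l r) v = mir (iR D v) := by
  cases h : D.pos v <;> simp [iL, iR, mir, tuD, h]
theorem tu6 : iR (tuD D l r) v = mir (iL D v) := by
  cases h : D.pos v <;> simp [iR, iL, mir, tuD, h]
theorem tu7 : jL (tuD D l r) v = mir (jR D v) := by
  cases h : D.pos v <;> simp [jL, jR, mir, tuD, h]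
theorem tu8 : jR (tuD D l r) v = mir (jL D v) := by
  cases h : D.pos v <;> simp [jR, jL, mir, tuD, h]
theorem tuO : (tuD D l r).overNext v = D.overNext v := rfl
theorem tuU (h : v ≠ l) (h' : v ≠ r) : (tuD D l r).underNext v = D.underNext v := by
  simp [tuD, Equiv.swap_apply_of_ne_of_ne h h']
theorem tul : (tuD D l r).underNext l = D.underNext r := by simp [tuD]
theorem tur : (tuD D l r).underNext r = D.underNext l := by simp [tuD]

end mirturn

theorem faces_turn {V F : Type} [DecidableEq V] {D : AltDiagram V} {l r : V}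
    (G : Faces false D l r F) : Nonempty (Faces false (tuD D l r) l r F) := by
  have H := faces_mir (s' := false) (D' := tuD D l r) (l' := l) (r' := r) G ?_ ?_
  · obtain ⟨h1, h2, h3, h4⟩ := H
    refine ⟨{
      ρ := G.ρ ∘ mir
      N := G.W
      S := G.E
      W := G.N
      E := G.S
      NS := G.WE
      NW := G.NW.symm
      NE := G.SW.symm
      SW := G.NE.symm
      SE := G.SE.symm
      WE := G.NS
      fin := G.fin
      card := G.card
      surj := h1
      sound := h2
      conn := ⟨h3, h4⟩
      l1 := ?_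
      l2 := ?_
      l3 := ?_
      l4 := ?_
      t1 := by simp
      t2 := by simp
      t3 := by simp
      t4 := by simp
      f0 := fun _ => G.f0 rfl
      f1 := fun _ => ?_
      f2 := fun _ => ?_
      f3 := fun _ => ?_
      f4 := fun _ => ?_ }⟩
    · simp only [Function.comp, tu3, mir_mir, G.l3]
    · simp only [Function.comp, tul, tu7, mir_mir]; exact G.f4 rfl
    · simp only [Function.comp, tu4, mir_mir, G.l1]
    · simp only [Function.comp, tul, tu8, mir_mir]; exact G.f2 rfl
    · simp only [Function.comp, tu3, mir_mir]; exact G.f3 rfl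
    · simp only [Function.comp, tur, tu7, mir_mir]; exact G.l4
    · simp only [Function.comp, tu4, mir_mir]; exact G.f1 rfl
    · simp only [Function.comp, tur, tu8, mir_mir]; exact G.l2
  · intro a b h
    cases h with
    | oL v hv =>
      have := Opn.oR (s := false) (D := tuD D l r) (l := l) (r := r) v (by simp)
      rwa [tuO, tu2, tu6] at this
    | oR v hv =>
      have := Opn.oL (s := false) (D := tuD D l r) (l := l) (r := r) v (by simp)
      rwa [tuO, tu1, tu5] at this
    | uL v h1 h2 =>
      have := Opn.uR (s := false) (D := tuD D l r) (l := l) (r := r) v h1 h2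
      rwa [tuU D l r v h1 (h2 rfl), tu4, tu8] at this
    | uR v h1 h2 =>
      have := Opn.uL (s := false) (D := tuD D l r) (l := l) (r := r) v h1 h2
      rwa [tuU D l r v h1 (h2 rfl), tu3, tu7] at this
  · intro a b h
    cases h with
    | oL v hv =>
      rw [tuO, tu1, tu5, mir_mir, mir_mir]
      exact Opn.oR (s := false) v (by simp)
    | oR v hv =>
      rw [tuO, tu2, tu6, mir_mir, mir_mir]
      exact Opn.oL (s := false) v (by simp)
    | uL v h1 h2 =>
      rw [tuU D l r v h1 (h2 rfl), tu3, tu7, mir_mir, mir_mir]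
      exact Opn.uR (s := false) v h1 h2
    | uR v h1 h2 =>
      rw [tuU D l r v h1 (h2 rfl), tu4, tu8, mir_mir, mir_mir]
      exact Opn.uL (s := false) v h1 h2

/-- every tangle has regions -/
theorem faces {s : Bool} (t : Tangle s) :
    ∃ F : Type, Nonempty (Faces s t.diag.D t.diag.l t.diag.r F) := by
  induction t with
  | cross => exact ⟨Corner, faces_cross⟩
  | stack S T ihS ihT =>
    obtain ⟨F₁, ⟨G₁⟩⟩ := ihS
    obtain ⟨F₂, ⟨G₂⟩⟩ := ihT
    refine ⟨_, faces_stack' (V₁ := S.diag.V) (V₂ := T.diag.V)
      (D := (Tangle.stack S T).diag.D) inferInstance inferInstance G₁ G₂ (fun v => rfl)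
      (fun v => rfl) ?_ ?_ ?_ ?_ ?_ ?_ ?_ ?_⟩
    · exact swO_l _ _ _
    · exact swO_r _ _ _
    · exact swU_l _ _ _
    · exact swU_r _ _ _
    · exact fun v h => swO_n _ (fun e => h (Sum.inl.inj e)) (fun e => Sum.inl_ne_inr e)
    · exact fun v h => swO_n _ (fun e => Sum.inr_ne_inl e) (fun e => h (Sum.inr.inj e))
    · exact fun v h => swU_n _ (fun e => h (Sum.inl.inj e)) (fun e => Sum.inl_ne_inr e)
    · exact fun v h => swU_n _ (fun e => Sum.inr_ne_inl e) (fun e => h (Sum.inr.inj e))
  | beside P T ihP ihT =>
    obtain ⟨F₁, ⟨G₁⟩⟩ := ihP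
    obtain ⟨F₂, ⟨G₂⟩⟩ := ihT
    refine ⟨_, faces_besum' (V₁ := P.diag.V) (V₂ := T.diag.V)
      (D := (Tangle.beside P T).diag.D) inferInstance inferInstance G₁ G₂ (fun v => rfl)
      (fun v => rfl) ?_ ?_ (fun v => rfl) (fun v => rfl) ?_ ?_⟩
    · exact swU_l _ _ _
    · exact swU_r _ _ _
    · exact fun v h => swU_n _ (fun e => h (Sum.inl.inj e)) (fun e => Sum.inl_ne_inr e)
    · exact fun v h => swU_n _ (fun e => Sum.inr_ne_inl e) (fun e => h (Sum.inr.inj e))
  | flip T ih =>
    obtain ⟨F₁, ⟨G₁⟩⟩ := ih
    exact ⟨_, faces_flip G₁⟩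
  | opposite S T ihS ihT =>
    obtain ⟨F₁, ⟨G₁⟩⟩ := ihS
    obtain ⟨F₂, ⟨G₂⟩⟩ := ihT
    refine ⟨_, faces_opp' (V₁ := S.diag.V) (V₂ := T.diag.V)
      (D := (Tangle.opposite S T).diag.D) inferInstance inferInstance G₁ G₂ (fun v => rfl)
      (fun v => rfl) ?_ ?_ (fun v => rfl) (fun v => rfl) ?_ ?_⟩
    · exact swO_l _ _ _
    · exact swO_r _ _ _
    · exact fun v h => swO_n _ (fun e => h (Sum.inl.inj e)) (fun e => Sum.inl_ne_inr e)
    · exact fun v h => swO_n _ (fun e => Sum.inr_ne_inl e) (fun e => h (Sum.inr.inj e))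
  | sum P Q ihP ihQ =>
    obtain ⟨F₁, ⟨G₁⟩⟩ := ihP
    obtain ⟨F₂, ⟨G₂⟩⟩ := ihQ
    refine ⟨_, faces_besum' (V₁ := P.diag.V) (V₂ := Q.diag.V)
      (D := (Tangle.sum P Q).diag.D) inferInstance inferInstance G₁ G₂ (fun v => rfl)
      (fun v => rfl) ?_ ?_ (fun v => rfl) (fun v => rfl) ?_ ?_⟩
    · exact swU_l _ _ _
    · exact swU_r _ _ _
    · exact fun v h => swU_n _ (fun e => h (Sum.inl.inj e)) (fun e => Sum.inl_ne_inr e)
    · exact fun v h => swU_n _ (fun e => Sum.inr_ne_inl e) (fun e => h (Sum.inr.inj e))
  | turn P ih =>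
    obtain ⟨F₁, ⟨G₁⟩⟩ := ih
    exact ⟨_, faces_turn G₁⟩

/-- From the regions of the open tangle to the diagram. -/
theorem planar_of_faces {s : Bool} {V F : Type} [Finite V] {D : AltDiagram V} {l r : V}
    (G : Faces s D l r F) : D.Connected ∧ D.Planar := by
  classical
  have := G.fin
  have hS : ∀ c c', Opn s D l r c c' → D.SameSide c c' := by
    intro c c' h
    cases h with
    | oL v hv => exact .overLeft v
    | oR v hv => exact .overRight v
    | uL v h1 h2 => exact .underLeft v
    | uR v h1 h2 => exact .underRight v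
  refine ⟨?_, ?_⟩
  · intro S hne hcl
    have hfin : ∀ (σ : Equiv.Perm V), (∀ v ∈ S, σ v ∈ S) → ∀ v, σ v ∈ S → v ∈ S := by
      intro σ h v hv
      let f : S → S := fun w => ⟨σ w.1, h w.1 w.2⟩
      have hinj : Function.Injective f := fun a b hab =>
        Subtype.ext (σ.injective (congrArg Subtype.val hab))
      obtain ⟨w, hw⟩ := (Finite.injective_iff_surjective.1 hinj) ⟨σ v, hv⟩
      have := σ.injective (congrArg Subtype.val hw)
      rw [← this]; exact w.2
    have hO := hfin D.overNext fun v hv => (hcl v hv).1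
    have hU := hfin D.underNext fun v hv => (hcl v hv).2
    have key : ∀ v w, (∃ c c', Opn s D l r (v, c) (w, c')) → (v ∈ S ↔ w ∈ S) := by
      rintro v w ⟨c, c', h⟩
      have hh : w = D.overNext v ∨ w = D.underNext v := by
        generalize e : (v, c) = p at h
        generalize e' : (w, c') = q at h
        cases h with
        | oL v' hv =>
          left
          have h1 := congrArg Prod.fst e
          have h2 := congrArg Prod.fst e'
          simp only [oL, iL] at h1 h2
          rw [h2, h1]
        | oR v' hv =>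
          left
          have h1 := congrArg Prod.fst e
          have h2 := congrArg Prod.fst e'
          simp only [oR, iR] at h1 h2
          rw [h2, h1]
        | uL v' h3 h4 =>
          right
          have h1 := congrArg Prod.fst e
          have h2 := congrArg Prod.fst e'
          simp only [uL, jL] at h1 h2
          rw [h2, h1]
        | uR v' h3 h4 =>
          right
          have h1 := congrArg Prod.fst e
          have h2 := congrArg Prod.fst e'
          simp only [uR, jR] at h1 h2
          rw [h2, h1]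
      rcases hh with rfl | rfl
      · exact ⟨fun h => (hcl v h).1, hO v⟩
      · exact ⟨fun h => (hcl v h).2, hU v⟩
    have key2 : ∀ v w, (v ∈ S ↔ w ∈ S) := by
      intro v w
      have := G.conn.2 v w
      induction this with
      | rel a b h => exact key a b h
      | refl a => exact Iff.rfl
      | symm a b _ ih => exact ih.symm
      | trans a b c _ _ ih1 ih2 => exact ih1.trans ih2
    obtain ⟨v₀, hv₀⟩ := hne
    exact Set.eq_univ_of_forall fun v => (key2 v₀ v).1 hv₀
  · -- the labelling of the closed diagram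
    let ρ' : V × Corner → {x : F // x ≠ G.N} := fun c =>
      if h : G.ρ c = G.N then ⟨G.S, G.NS.symm⟩ else ⟨G.ρ c, h⟩
    have eqN : ∀ c c', (G.ρ c = G.ρ c' ∨ (G.ρ c = G.N ∧ G.ρ c' = G.S) ∨
        (G.ρ c = G.S ∧ G.ρ c' = G.N)) → ρ' c = ρ' c' := by
      intro c c' h
      simp only [ρ']
      rcases h with h | ⟨h1, h2⟩ | ⟨h1, h2⟩
      · simp only [h]
      · rw [dif_pos h1, dif_neg (by rw [h2]; exact G.NS.symm)]
        exact Subtype.ext h2.symm
      · rw [dif_pos h2, dif_neg (by rw [h1]; exact G.NS.symm)]
        exact Subtype.ext h1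
    have sound : ∀ c c', D.SameSide c c' → ρ' c = ρ' c' := by
      intro c c' h
      apply eqN
      cases h with
      | overLeft v =>
        by_cases e : s = true ∧ v = r
        · obtain ⟨e1, e2⟩ := e
          subst e2
          exact Or.inr (Or.inl ⟨G.t1 e1, G.t2 e1⟩)
        · exact Or.inl (G.sound _ _ (.oL v fun h1 h2 => e ⟨h1, h2⟩))
      | overRight v =>
        by_cases e : s = true ∧ v = r
        · obtain ⟨e1, e2⟩ := e
          subst e2
          exact Or.inl ((G.t3 e1).trans (G.t4 e1).symm)
        · exact Or.inl (G.sound _ _ (.oR v fun h1 h2 => e ⟨h1, h2⟩))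
      | underLeft v =>
        by_cases e0 : v = l
        · subst e0
          exact Or.inl (G.l1.trans G.l2.symm)
        by_cases e : s = false ∧ v = r
        · obtain ⟨e1, e2⟩ := e
          subst e2
          exact Or.inl ((G.f1 e1).trans (G.f2 e1).symm)
        · exact Or.inl (G.sound _ _ (.uL v e0 fun h1 h2 => e ⟨h1, h2⟩))
      | underRight v =>
        by_cases e0 : v = l
        · subst e0
          exact Or.inr (Or.inl ⟨G.l3, G.l4⟩)
        by_cases e : s = false ∧ v = r
        · obtain ⟨e1, e2⟩ := e
          subst e2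
          exact Or.inr (Or.inr ⟨G.f3 e1, G.f4 e1⟩)
        · exact Or.inl (G.sound _ _ (.uR v e0 fun h1 h2 => e ⟨h1, h2⟩))
    have soundE : ∀ c c', Relation.EqvGen D.SameSide c c' → ρ' c = ρ' c' := by
      intro c c' h
      induction h with
      | rel a b h => exact sound a b h
      | refl a => rfl
      | symm a b _ ih => exact ih.symm
      | trans a b c _ _ ih1 ih2 => exact ih1.trans ih2
    have opE : ∀ c c', G.ρ c = G.ρ c' → Relation.EqvGen D.SameSide c c' := by
      intro c c' h
      exact eqvGen_map (r' := D.SameSide) id hS (G.conn.1 _ _ h)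
    have NSE : ∀ c c', G.ρ c = G.N → G.ρ c' = G.S → Relation.EqvGen D.SameSide c c' := by
      intro c c' h1 h2
      have a1 := opE c (uR D l) (h1.trans G.l3.symm)
      have a2 := opE (jR D (D.underNext l)) c' (G.l4.trans h2.symm)
      exact a1.trans _ _ _ (Relation.EqvGen.trans _ _ _ (.rel _ _ (.underRight l)) a2)
    have complete : ∀ c c', ρ' c = ρ' c' → Relation.EqvGen D.SameSide c c' := by
      intro c c' h
      simp only [ρ'] at h
      by_cases h1 : G.ρ c = G.N <;> by_cases h2 : G.ρ c' = G.N
      · exact opE c c' (h1.trans h2.symm)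
      · rw [dif_pos h1, dif_neg h2] at h
        exact NSE c c' h1 (congrArg Subtype.val h).symm
      · rw [dif_neg h1, dif_pos h2] at h
        exact (NSE c' c h2 (congrArg Subtype.val h)).symm _ _
      · rw [dif_neg h1, dif_neg h2] at h
        exact opE c c' (congrArg Subtype.val h)
    let φ : D.Region → {x : F // x ≠ G.N} := Quotient.lift ρ' soundE
    have hφ : Function.Bijective φ := by
      refine ⟨?_, ?_⟩
      · intro a b
        induction a using Quotient.inductionOn with | _ a => ?_
        induction b using Quotient.inductionOn with | _ b => ?_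
        intro h
        exact Quotient.sound (complete a b h)
      · rintro ⟨x, hx⟩
        obtain ⟨c, hc⟩ := G.surj x
        refine ⟨Quotient.mk _ c, ?_⟩
        show ρ' c = ⟨x, hx⟩
        simp only [ρ']
        rw [dif_neg (by rw [hc]; exact hx)]
        exact Subtype.ext hc
    show Nat.card D.Region = Nat.card V + 2
    rw [Nat.card_congr (Equiv.ofBijective φ hφ)]
    have h1 := G.card
    have : Fintype F := Fintype.ofFinite F
    have h2 : Nat.card {x : F // x ≠ G.N} = Nat.card F - 1 := by
      rw [Nat.card_eq_fintype_card, Nat.card_eq_fintype_card, Fintype.card_subtype]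
      have : (Finset.univ.filter fun x : F => x ≠ G.N) = Finset.univ.erase G.N := by
        ext x; simp
      rw [this, Finset.card_erase_of_mem (Finset.mem_univ _), Finset.card_univ]
    omega

/-- The diagrams of tangles are connected diagrams on the sphere. -/
theorem diag_planar {s : Bool} (t : Tangle s) : t.diag.D.Connected ∧ t.diag.D.Planar := by
  obtain ⟨F, ⟨G⟩⟩ := faces t
  exact planar_of_faces G

end Pool.Agent.Helper37.Arb
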